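import Pool.Agent.H54.GradDefs

/-!
# An explicit flow: the algebra (MP_919d81_mp)
-/

set_option autoImplicit false

open scoped ContDiff Topology
open Set Metric Complex

namespace Pool.Agent.H54.Grad

/-- `q = x²/4 + 4y²` -/
noncomputable def q (v : E3) : ℝ := (v 0) ^ 2 / 4 + 4 * (v 1) ^ 2

noncomputable def D (v : E3) : ℝ := 1 - (v 2) ^ 2 - (q v - 1) ^ 2

noncomputable def S (v : E3) : ℝ := Real.sqrt (D v)

/-- the magnetic field -/
noncomputable def X (v : E3) : E3 :=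
  !₂[(v 2 * v 0 - 4 * S v * v 1) / q v, (v 2 * v 1 + S v * v 0 / 4) / q v, 2 * (1 - q v)]

/-- the pressure -/
noncomputable def p (v : E3) : ℝ :=
  -((v 0) ^ 2 + (v 1) ^ 2 + 4 * (v 2) ^ 2) / 2 - ((X v 0) ^ 2 + (X v 1) ^ 2 + (X v 2) ^ 2) / 2

/-- the domain of the flow -/
def dom : Set E3 := {v | 0 < D v}

noncomputable def wv (v : E3) : ℂ := ⟨v 0 / 2, 2 * v 1⟩

noncomputable def ze (v : E3) : ℂ := ⟨v 2, q v - 1⟩

noncomputable def al (v : E3) : ℂ := wv v * ⟨S v + q v, -v 2⟩ / ((2 * q v : ℝ) : ℂ)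

noncomputable def Rv (v : E3) : ℝ := Real.sqrt ((1 + S v) / 2)

noncomputable def uv (v : E3) : ℂ := al v / ((Rv v : ℝ) : ℂ)

noncomputable def Hv (v : E3) : ℂ := ze v * (starRingEnd ℂ (uv v)) ^ 2

noncomputable def Sg (H : ℂ) : ℝ := Real.sqrt (1 - normSq H)

noncomputable def Rg (H : ℂ) : ℝ := Real.sqrt ((1 + Sg H) / 2)

noncomputable def wg (H u : ℂ) : ℂ :=
  (Rg H : ℂ) * u + (I / 2) * (starRingEnd ℂ H / (Rg H : ℂ)) * starRingEnd ℂ u

/-- the parametrisation of the domain by the orbits `H` and the phase `u` -/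
noncomputable def g (H u : ℂ) : E3 := !₂[2 * (wg H u).re, (wg H u).im / 2, (H * u ^ 2).re]

@[simp] theorem X_0 (v : E3) : X v 0 = (v 2 * v 0 - 4 * S v * v 1) / q v := rfl
@[simp] theorem X_1 (v : E3) : X v 1 = (v 2 * v 1 + S v * v 0 / 4) / q v := rfl
@[simp] theorem X_2 (v : E3) : X v 2 = 2 * (1 - q v) := rfl
@[simp] theorem g_0 (H u : ℂ) : g H u 0 = 2 * (wg H u).re := rfl
@[simp] theorem g_1 (H u : ℂ) : g H u 1 = (wg H u).im / 2 := rfl
@[simp] theorem g_2 (H u : ℂ) : g H u 2 = (H * u ^ 2).re := rfl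

theorem q_nonneg (v : E3) : 0 ≤ q v := by unfold q; positivity

theorem q_pos {v : E3} (hv : v ∈ dom) : 0 < q v := by
  have h : 0 < D v := hv
  rcases (q_nonneg v).lt_or_eq with h1 | h1
  · exact h1
  · unfold D at h
    rw [← h1] at h
    nlinarith [sq_nonneg (v 2)]

theorem S_pos {v : E3} (hv : v ∈ dom) : 0 < S v := Real.sqrt_pos.2 hv

theorem S_sq {v : E3} (hv : v ∈ dom) : S v ^ 2 = 1 - (v 2) ^ 2 - (q v - 1) ^ 2 := by
  have h : 0 < D v := hv
  rw [S, Real.sq_sqrt h.le, D]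

theorem Rv_pos (v : E3) : 0 < Rv v := by
  apply Real.sqrt_pos.2
  have := Real.sqrt_nonneg (D v)
  unfold S
  positivity

theorem Rv_sq (v : E3) : Rv v ^ 2 = (1 + S v) / 2 := by
  apply Real.sq_sqrt
  have := Real.sqrt_nonneg (D v)
  unfold S
  positivity

theorem Rg_pos (H : ℂ) : 0 < Rg H := by
  apply Real.sqrt_pos.2
  have := Real.sqrt_nonneg (1 - normSq H)
  unfold Sg
  positivity

theorem Rg_sq (H : ℂ) : Rg H ^ 2 = (1 + Sg H) / 2 := by
  apply Real.sq_sqrt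
  have := Real.sqrt_nonneg (1 - normSq H)
  unfold Sg
  positivity

theorem Sg_sq {H : ℂ} (hH : normSq H < 1) : Sg H ^ 2 = 1 - normSq H :=
  Real.sq_sqrt (by linarith)

theorem Sg_pos {H : ℂ} (hH : normSq H < 1) : 0 < Sg H := Real.sqrt_pos.2 (by linarith)

/-- `4 R⁴ - 4 R² + |H|² = 0` -/
theorem Rg_rel {H : ℂ} (hH : normSq H < 1) : 4 * Rg H ^ 2 * (1 - Rg H ^ 2) = normSq H := by
  have h1 := Rg_sq H
  have h2 := Sg_sq hH
  rw [h1]
  linear_combination -h2

theorem wg_re (H u : ℂ) : (wg H u).re = Rg H * u.re + (H.im * u.re + H.re * u.im) / (2 * Rg H) := by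
  have hR := (Rg_pos H).ne'
  unfold wg
  have h : starRingEnd ℂ H / (Rg H : ℂ) = ⟨H.re / Rg H, -H.im / Rg H⟩ := by
    apply Complex.ext <;> simp [Complex.div_ofReal_re, Complex.div_ofReal_im]
  have h2 : (I / 2 : ℂ) = ⟨0, 1 / 2⟩ := by
    apply Complex.ext <;> simp
  rw [h, h2]
  simp
  field_simp

theorem wg_im (H u : ℂ) : (wg H u).im = Rg H * u.im + (H.re * u.re - H.im * u.im) / (2 * Rg H) := by
  have hR := (Rg_pos H).ne'
  unfold wg
  have h : starRingEnd ℂ H / (Rg H : ℂ) = ⟨H.re / Rg H, -H.im / Rg H⟩ := by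
    apply Complex.ext <;> simp [Complex.div_ofReal_re, Complex.div_ofReal_im]
  have h2 : (I / 2 : ℂ) = ⟨0, 1 / 2⟩ := by
    apply Complex.ext <;> simp
  rw [h, h2]
  simp
  field_simp
  ring

theorem wv_g (H u : ℂ) : wv (g H u) = wg H u := by
  apply Complex.ext
  · simp [wv]
  · simp only [wv, g_1]; ring

theorem q_eq (v : E3) : q v = normSq (wv v) := by
  simp only [q, wv, normSq_apply]
  ring

theorem sq_re (H u : ℂ) : (H * u ^ 2).re = H.re * (u.re ^ 2 - u.im ^ 2) - H.im * (2 * u.re * u.im) := by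
  rw [sq]
  simp only [mul_re, mul_im]
  ring

theorem sq_im (H u : ℂ) : (H * u ^ 2).im = H.re * (2 * u.re * u.im) + H.im * (u.re ^ 2 - u.im ^ 2) := by
  rw [sq]
  simp only [mul_re, mul_im]
  ring

theorem q_g {H u : ℂ} (hH : normSq H < 1) (hu : normSq u = 1) :
    q (g H u) = 1 + (H * u ^ 2).im := by
  have hR := (Rg_pos H).ne'
  have hrel := Rg_rel hH
  rw [q_eq, wv_g, normSq_apply, wg_re, wg_im, sq_im]
  rw [normSq_apply] at hrel hu
  field_simp
  linear_combination (4 * Rg H ^ 4 + (H.re * H.re + H.im * H.im)) * hu - hrel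

theorem ze_g {H u : ℂ} (hH : normSq H < 1) (hu : normSq u = 1) : ze (g H u) = H * u ^ 2 := by
  apply Complex.ext
  · simp [ze]
  · simp [ze, q_g hH hu]

theorem D_eq (v : E3) : D v = 1 - normSq (ze v) := by
  simp only [D, ze, normSq_apply]; ring

theorem D_g {H u : ℂ} (hH : normSq H < 1) (hu : normSq u = 1) : D (g H u) = 1 - normSq H := by
  rw [D_eq, ze_g hH hu, map_mul, map_pow, hu]; ring

theorem g_mem {H u : ℂ} (hH : normSq H < 1) (hu : normSq u = 1) : g H u ∈ dom := by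
  show 0 < D (g H u)
  rw [D_g hH hu]; linarith

theorem S_g {H u : ℂ} (hH : normSq H < 1) (hu : normSq u = 1) : S (g H u) = Sg H := by
  rw [S, D_g hH hu, Sg]

theorem Rv_g {H u : ℂ} (hH : normSq H < 1) (hu : normSq u = 1) : Rv (g H u) = Rg H := by
  rw [Rv, S_g hH hu, Rg]

theorem uv_g {H u : ℂ} (hH : normSq H < 1) (hu : normSq u = 1) : uv (g H u) = u := by
  have hR := (Rg_pos H).ne'
  have hq := (q_pos (g_mem hH hu)).ne'
  have hRc : (Rg H : ℂ) ≠ 0 := by exact_mod_cast hR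
  have hqc : ((q (g H u) : ℝ) : ℂ) ≠ 0 := by exact_mod_cast hq
  rw [uv, Rv_g hH hu, al, wv_g, S_g hH hu]
  have hqw : ((q (g H u) : ℝ) : ℂ) = wg H u * starRingEnd ℂ (wg H u) := by
    rw [q_eq, wv_g, Complex.mul_conj]
  have huu : u * starRingEnd ℂ u = 1 := by
    rw [Complex.mul_conj, hu]; simp
  have key : (⟨Sg H + q (g H u), -(g H u 2)⟩ : ℂ) = 2 * (Rg H : ℂ) * u * starRingEnd ℂ (wg H u) := by
    have h1 : starRingEnd ℂ (wg H u) =
        (Rg H : ℂ) * starRingEnd ℂ u - (I / 2) * (H / (Rg H : ℂ)) * u := by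
      unfold wg
      simp only [map_add, map_mul, map_div₀, Complex.conj_I, Complex.conj_conj, Complex.conj_ofReal,
        map_ofNat]
      ring
    rw [h1]
    have h2 : 2 * (Rg H : ℂ) * u * ((Rg H : ℂ) * starRingEnd ℂ u - (I / 2) * (H / (Rg H : ℂ)) * u) =
        2 * (Rg H : ℂ) ^ 2 * (u * starRingEnd ℂ u) - I * (H * u ^ 2) := by
      field_simp
    rw [h2, huu, mul_one]
    have h3 : (2 * (Rg H : ℂ) ^ 2) = ((1 + Sg H : ℝ) : ℂ) := by
      rw [← Complex.ofReal_pow, Rg_sq]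
      push_cast
      ring
    rw [h3, q_g hH hu]
    apply Complex.ext
    · simp
      ring
    · simp
  rw [key]
  have h4 : ((2 * q (g H u) : ℝ) : ℂ) = 2 * (wg H u * starRingEnd ℂ (wg H u)) := by
    rw [← hqw]; push_cast; ring
  rw [h4]
  rw [hqw] at hqc
  have h5 : wg H u ≠ 0 := left_ne_zero_of_mul hqc
  have h6 : starRingEnd ℂ (wg H u) ≠ 0 := right_ne_zero_of_mul hqc
  field_simp

theorem Hv_g {H u : ℂ} (hH : normSq H < 1) (hu : normSq u = 1) : Hv (g H u) = H := by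
  have huu : u * starRingEnd ℂ u = 1 := by
    rw [Complex.mul_conj, hu]; simp
  rw [Hv, ze_g hH hu, uv_g hH hu]
  calc H * u ^ 2 * (starRingEnd ℂ u) ^ 2 = H * (u * starRingEnd ℂ u) ^ 2 := by ring
    _ = H := by rw [huu]; ring

theorem al_normSq {v : E3} (hv : v ∈ dom) : normSq (al v) = Rv v ^ 2 := by
  have hq := (q_pos hv).ne'
  have hS := S_sq hv
  rw [Rv_sq, al, normSq_div, normSq_mul, ← q_eq, normSq_ofReal, normSq_mk]
  field_simp
  linear_combination hS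

theorem uv_normSq {v : E3} (hv : v ∈ dom) : normSq (uv v) = 1 := by
  have hR := (Rv_pos v).ne'
  rw [uv, normSq_div, al_normSq hv, normSq_ofReal]
  field_simp

theorem Hv_normSq {v : E3} (hv : v ∈ dom) : normSq (Hv v) = 1 - D v := by
  rw [Hv, map_mul, map_pow, normSq_conj, uv_normSq hv, D_eq]; ring

theorem Hv_lt {v : E3} (hv : v ∈ dom) : normSq (Hv v) < 1 := by
  have h : 0 < D v := hv
  rw [Hv_normSq hv]; linarith

theorem Hv_uv {v : E3} (hv : v ∈ dom) : Hv v * uv v ^ 2 = ze v := by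
  have huu : uv v * starRingEnd ℂ (uv v) = 1 := by
    rw [Complex.mul_conj, uv_normSq hv]; simp
  rw [Hv]
  calc ze v * (starRingEnd ℂ (uv v)) ^ 2 * uv v ^ 2 = ze v * (uv v * starRingEnd ℂ (uv v)) ^ 2 := by ring
    _ = ze v := by rw [huu]; ring

theorem Rg_Hv {v : E3} (hv : v ∈ dom) : Rg (Hv v) = Rv v := by
  rw [Rg, Rv, Sg, Hv_normSq hv, S]
  simp

theorem wg_Hv {v : E3} (hv : v ∈ dom) : wg (Hv v) (uv v) = wv v := by
  have hR := (Rv_pos v).ne'
  have hRc : (Rv v : ℂ) ≠ 0 := by exact_mod_cast hR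
  have hq := (q_pos hv).ne'
  have hqc : ((q v : ℝ) : ℂ) ≠ 0 := by exact_mod_cast hq
  have hS := S_sq hv
  have huu : uv v * starRingEnd ℂ (uv v) = 1 := by
    rw [Complex.mul_conj, uv_normSq hv]; simp
  have hal : al v = (Rv v : ℂ) * uv v := by
    rw [uv]; field_simp
  have h1 : wg (Hv v) (uv v) = al v * (((Rv v : ℂ) ^ 2 + (I / 2) * starRingEnd ℂ (ze v)) / (Rv v : ℂ) ^ 2) := by
    rw [wg, Rg_Hv hv, Hv, hal]
    simp only [map_mul, map_pow, Complex.conj_conj]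
    have : starRingEnd ℂ (ze v) * uv v ^ 2 / (Rv v : ℂ) * starRingEnd ℂ (uv v) =
        starRingEnd ℂ (ze v) * uv v / (Rv v : ℂ) * (uv v * starRingEnd ℂ (uv v)) := by ring
    have h2 : I / 2 * (starRingEnd ℂ (ze v) * uv v ^ 2 / (Rv v : ℂ)) * starRingEnd ℂ (uv v) =
        I / 2 * (starRingEnd ℂ (ze v) * uv v / (Rv v : ℂ)) := by
      rw [mul_assoc, this, huu, mul_one]
    rw [h2]
    field_simp
  have h3 : (Rv v : ℂ) ^ 2 + (I / 2) * starRingEnd ℂ (ze v) = ⟨(S v + q v) / 2, v 2 / 2⟩ := by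
    rw [← Complex.ofReal_pow, Rv_sq]
    have h2 : (I / 2 : ℂ) = ⟨0, 1 / 2⟩ := by
      apply Complex.ext <;> simp
    rw [h2]
    apply Complex.ext
    · simp [ze]; ring
    · simp [ze]; ring
  rw [h1, h3, al]
  have h4 : ((⟨S v + q v, -v 2⟩ : ℂ)) * ⟨(S v + q v) / 2, v 2 / 2⟩ = ((q v * (1 + S v) : ℝ) : ℂ) := by
    apply Complex.ext
    · simp
      linear_combination (1 / 2) * hS
    · simp
      ring
  have h5 : (Rv v : ℂ) ^ 2 = (((1 + S v) / 2 : ℝ) : ℂ) := by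
    rw [← Complex.ofReal_pow, Rv_sq]
  have h6 : (1 + S v) ≠ 0 := by have := S_pos hv; positivity
  have h6c : ((1 + S v : ℝ) : ℂ) ≠ 0 := by exact_mod_cast h6
  have h7 : wv v * ⟨S v + q v, -v 2⟩ / ((2 * q v : ℝ) : ℂ) * (⟨(S v + q v) / 2, v 2 / 2⟩ / (Rv v : ℂ) ^ 2) =
      wv v * ((⟨S v + q v, -v 2⟩ : ℂ) * ⟨(S v + q v) / 2, v 2 / 2⟩) / (((2 * q v : ℝ) : ℂ) * (Rv v : ℂ) ^ 2) := by
    field_simp
  rw [h7, h4, h5]
  push_cast at h6c ⊢
  field_simp

theorem g_Hv {v : E3} (hv : v ∈ dom) : g (Hv v) (uv v) = v := by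
  ext i
  fin_cases i
  · show g (Hv v) (uv v) 0 = v 0
    rw [g_0, wg_Hv hv, wv]; ring
  · show g (Hv v) (uv v) 1 = v 1
    rw [g_1, wg_Hv hv, wv]; ring
  · show g (Hv v) (uv v) 2 = v 2
    rw [g_2, Hv_uv hv, ze]

/-! ### the velocity and the pressure in the new coordinates -/

/-- the complex velocity -/
noncomputable def vg (H u : ℂ) : ℂ :=
  I * ((Rg H : ℂ) * u - (I / 2) * (starRingEnd ℂ H / (Rg H : ℂ)) * starRingEnd ℂ u)

theorem vg_re (H u : ℂ) :
    (vg H u).re = -(Rg H * u.im - (H.re * u.re - H.im * u.im) / (2 * Rg H)) := by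
  have hR := (Rg_pos H).ne'
  unfold vg
  have h : starRingEnd ℂ H / (Rg H : ℂ) = ⟨H.re / Rg H, -H.im / Rg H⟩ := by
    apply Complex.ext <;> simp [Complex.div_ofReal_re, Complex.div_ofReal_im]
  have h2 : (I / 2 : ℂ) = ⟨0, 1 / 2⟩ := by
    apply Complex.ext <;> simp
  rw [h, h2]
  simp
  field_simp
  ring

theorem vg_im (H u : ℂ) :
    (vg H u).im = Rg H * u.re - (H.im * u.re + H.re * u.im) / (2 * Rg H) := by
  have hR := (Rg_pos H).ne'
  unfold vg
  have h : starRingEnd ℂ H / (Rg H : ℂ) = ⟨H.re / Rg H, -H.im / Rg H⟩ := by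
    apply Complex.ext <;> simp [Complex.div_ofReal_re, Complex.div_ofReal_im]
  have h2 : (I / 2 : ℂ) = ⟨0, 1 / 2⟩ := by
    apply Complex.ext <;> simp
  rw [h, h2]
  simp
  field_simp

theorem vw_re {H u : ℂ} (hH : normSq H < 1) (hu : normSq u = 1) :
    (vg H u).re * (wg H u).re + (vg H u).im * (wg H u).im = (H * u ^ 2).re := by
  have hR := (Rg_pos H).ne'
  have hrel := Rg_rel hH
  rw [vg_re, vg_im, wg_re, wg_im, sq_re]
  rw [normSq_apply] at hrel hu
  field_simp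
  ring

theorem vw_im {H u : ℂ} (hH : normSq H < 1) (hu : normSq u = 1) :
    (vg H u).im * (wg H u).re - (vg H u).re * (wg H u).im = Sg H := by
  have hR := (Rg_pos H).ne'
  have hrel := Rg_rel hH
  have hS : Sg H = 2 * Rg H ^ 2 - 1 := by rw [Rg_sq]; ring
  rw [vg_re, vg_im, wg_re, wg_im, hS]
  rw [normSq_apply] at hrel hu
  field_simp
  linear_combination (4 * Rg H ^ 4 - (H.re * H.re + H.im * H.im)) * hu + hrel

theorem q_g' (H u : ℂ) : q (g H u) = (wg H u).re ^ 2 + (wg H u).im ^ 2 := by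
  rw [q_eq, wv_g, normSq_apply]; ring

theorem X_g0 {H u : ℂ} (hH : normSq H < 1) (hu : normSq u = 1) :
    X (g H u) 0 = 2 * (vg H u).re := by
  have hq := (q_pos (g_mem hH hu)).ne'
  rw [X_0, div_eq_iff hq, q_g', S_g hH hu, g_0, g_1, g_2]
  rw [← vw_re hH hu, ← vw_im hH hu]
  ring

theorem X_g1 {H u : ℂ} (hH : normSq H < 1) (hu : normSq u = 1) :
    X (g H u) 1 = (vg H u).im / 2 := by
  have hq := (q_pos (g_mem hH hu)).ne'
  rw [X_1, div_eq_iff hq, q_g', S_g hH hu, g_0, g_1, g_2]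
  rw [← vw_re hH hu, ← vw_im hH hu]
  ring

theorem X_g2 {H u : ℂ} (hH : normSq H < 1) (hu : normSq u = 1) :
    X (g H u) 2 = -2 * (H * u ^ 2).im := by
  rw [X_2, q_g hH hu]
  ring

/-- the centre of the family of tori -/
noncomputable def Hs : ℂ := ⟨0, -(15 / 32)⟩

theorem p_g {H u : ℂ} (hH : normSq H < 1) (hu : normSq u = 1) :
    p (g H u) = -(863 / 512) - 2 * normSq (H - Hs) := by
  have hR := (Rg_pos H).ne'
  have hrel := Rg_rel hH
  rw [p, X_g0 hH hu, X_g1 hH hu, X_g2 hH hu, g_0, g_1, g_2]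
  have h1 : (wg H u).re ^ 2 + (vg H u).re ^ 2 = 1 + H.im := by
    rw [vg_re, wg_re]
    rw [normSq_apply] at hrel hu
    field_simp
    linear_combination (4 * Rg H ^ 4 + (H.re * H.re + H.im * H.im) + 4 * Rg H ^ 2 * H.im) * hu - hrel
  have h2 : (wg H u).im ^ 2 + (vg H u).im ^ 2 = 1 - H.im := by
    rw [vg_im, wg_im]
    rw [normSq_apply] at hrel hu
    field_simp
    linear_combination (4 * Rg H ^ 4 + (H.re * H.re + H.im * H.im) - 4 * Rg H ^ 2 * H.im) * hu - hrel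
  have h3 : (H * u ^ 2).re ^ 2 + (H * u ^ 2).im ^ 2 = normSq H := by
    have : normSq (H * u ^ 2) = normSq H := by rw [map_mul, map_pow, hu]; ring
    rw [← this, normSq_apply]; ring
  have h4 : normSq (H - Hs) = normSq H + 15 / 16 * H.im + 225 / 1024 := by
    rw [normSq_apply, normSq_apply, sub_re, sub_im]
    show (H.re - 0) * (H.re - 0) + (H.im - -(15 / 32)) * (H.im - -(15 / 32)) = _
    ring
  rw [h4, ← h3]
  linear_combination (-2 : ℝ) * h1 - (1 / 8 : ℝ) * h2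

theorem p_eq {v : E3} (hv : v ∈ dom) : p v = -(863 / 512) - 2 * normSq (Hv v - Hs) := by
  have := p_g (Hv_lt hv) (uv_normSq hv)
  rwa [g_Hv hv] at this

end Pool.Agent.H54.Grad
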