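import Pool.Agent.H54.GradA

/-!
# The explicit flow: the equations (MP_919d81_mp)
-/

set_option autoImplicit false

open scoped ContDiff Topology
open Set Metric

namespace Pool.Agent.H54.Grad

/-- the coordinate forms -/
noncomputable def dx (i : Fin 3) : E3 →L[ℝ] ℝ := EuclideanSpace.proj i

theorem dx_apply (i : Fin 3) (v : E3) : dx i v = v i := rfl

theorem hasFDerivAt_coord (i : Fin 3) (v : E3) : HasFDerivAt (fun v : E3 => v i) (dx i) v :=
  (dx i).hasFDerivAt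

theorem pd_eq {f : E3 → ℝ} {f' : E3 →L[ℝ] ℝ} {v : E3} (h : HasFDerivAt f f' v) (i : Fin 3) :
    pd i f v = f' (EuclideanSpace.single i 1) := by
  rw [pd, h.fderiv]

theorem comb_single {a b c : ℝ} :
    ((a • dx 0 + b • dx 1 + c • dx 2 : E3 →L[ℝ] ℝ) (EuclideanSpace.single 0 1) = a) ∧
    ((a • dx 0 + b • dx 1 + c • dx 2 : E3 →L[ℝ] ℝ) (EuclideanSpace.single 1 1) = b) ∧
    ((a • dx 0 + b • dx 1 + c • dx 2 : E3 →L[ℝ] ℝ) (EuclideanSpace.single 2 1) = c) := by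
  refine ⟨?_, ?_, ?_⟩ <;> simp [dx_apply]

/-- `f` has at `v` the partial derivatives `a, b, c` -/
def Pds (f : E3 → ℝ) (v : E3) (a b c : ℝ) : Prop :=
  HasFDerivAt f (a • dx 0 + b • dx 1 + c • dx 2 : E3 →L[ℝ] ℝ) v

theorem Pds.pd0 {f : E3 → ℝ} {v : E3} {a b c : ℝ} (h : Pds f v a b c) : pd 0 f v = a := by
  rw [pd_eq h, comb_single.1]
theorem Pds.pd1 {f : E3 → ℝ} {v : E3} {a b c : ℝ} (h : Pds f v a b c) : pd 1 f v = b := by
  rw [pd_eq h, comb_single.2.1]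
theorem Pds.pd2 {f : E3 → ℝ} {v : E3} {a b c : ℝ} (h : Pds f v a b c) : pd 2 f v = c := by
  rw [pd_eq h, comb_single.2.2]

theorem Pds.congr {f : E3 → ℝ} {v : E3} {a b c a' b' c' : ℝ} (h : Pds f v a b c) (ha : a = a')
    (hb : b = b') (hc : c = c') : Pds f v a' b' c' := by
  subst ha hb hc; exact h

theorem mk_pds {f : E3 → ℝ} {v : E3} {f' : E3 →L[ℝ] ℝ} {a b c : ℝ} (h : HasFDerivAt f f' v)
    (e : ∀ w : E3, f' w = a * w 0 + b * w 1 + c * w 2) : Pds f v a b c := by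
  refine h.congr_fderiv ?_
  refine ContinuousLinearMap.ext fun w => ?_
  rw [e w]
  simp [dx_apply]

theorem Pds.app {a b c : ℝ} (w : E3) :
    (a • dx 0 + b • dx 1 + c • dx 2 : E3 →L[ℝ] ℝ) w = a * w 0 + b * w 1 + c * w 2 := by
  simp [dx_apply]

theorem pds_coord0 (v : E3) : Pds (fun v => v 0) v 1 0 0 :=
  mk_pds (hasFDerivAt_coord 0 v) fun w => by rw [dx_apply]; ring
theorem pds_coord1 (v : E3) : Pds (fun v => v 1) v 0 1 0 :=
  mk_pds (hasFDerivAt_coord 1 v) fun w => by rw [dx_apply]; ring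
theorem pds_coord2 (v : E3) : Pds (fun v => v 2) v 0 0 1 :=
  mk_pds (hasFDerivAt_coord 2 v) fun w => by rw [dx_apply]; ring

theorem pds_const (r : ℝ) (v : E3) : Pds (fun _ => r) v 0 0 0 :=
  mk_pds (hasFDerivAt_const (𝕜 := ℝ) r v) fun w => by simp

theorem Pds.add {f h : E3 → ℝ} {v : E3} {a b c a' b' c' : ℝ} (hf : Pds f v a b c)
    (hh : Pds h v a' b' c') : Pds (fun v => f v + h v) v (a + a') (b + b') (c + c') :=
  mk_pds (HasFDerivAt.add hf hh) fun w => by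
    rw [add_apply, Pds.app, Pds.app]; ring

theorem Pds.sub {f h : E3 → ℝ} {v : E3} {a b c a' b' c' : ℝ} (hf : Pds f v a b c)
    (hh : Pds h v a' b' c') : Pds (fun v => f v - h v) v (a - a') (b - b') (c - c') :=
  mk_pds (HasFDerivAt.sub hf hh) fun w => by
    rw [sub_apply, Pds.app, Pds.app]; ring

theorem Pds.mul {f h : E3 → ℝ} {v : E3} {a b c a' b' c' : ℝ} (hf : Pds f v a b c)
    (hh : Pds h v a' b' c') : Pds (fun v => f v * h v) v (f v * a' + h v * a) (f v * b' + h v * b)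
      (f v * c' + h v * c) :=
  mk_pds (HasFDerivAt.mul hf hh) fun w => by
    rw [add_apply, smul_apply,
      smul_apply, Pds.app, Pds.app, smul_eq_mul, smul_eq_mul]; ring

theorem Pds.inv {f : E3 → ℝ} {v : E3} {a b c : ℝ} (hf : Pds f v a b c) (h0 : f v ≠ 0) :
    Pds (fun v => (f v)⁻¹) v (-(f v ^ 2)⁻¹ * a) (-(f v ^ 2)⁻¹ * b) (-(f v ^ 2)⁻¹ * c) :=
  mk_pds ((hasDerivAt_inv h0).comp_hasFDerivAt v hf) fun w => by
    rw [smul_apply, Pds.app, smul_eq_mul]; ring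

theorem Pds.sqrt {f : E3 → ℝ} {v : E3} {a b c : ℝ} (hf : Pds f v a b c) (h0 : f v ≠ 0) :
    Pds (fun v => Real.sqrt (f v)) v (1 / (2 * Real.sqrt (f v)) * a) (1 / (2 * Real.sqrt (f v)) * b)
      (1 / (2 * Real.sqrt (f v)) * c) :=
  mk_pds (HasFDerivAt.sqrt hf h0) fun w => by
    rw [smul_apply, Pds.app, smul_eq_mul]; ring

theorem pds_q (v : E3) : Pds q v (v 0 / 2) (8 * v 1) 0 := by
  have h0 := pds_coord0 v
  have h1 := pds_coord1 v
  have h := ((h0.mul h0).mul (pds_const (1 / 4) v)).add ((h1.mul h1).mul (pds_const 4 v))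
  have h2 := h.congr (a' := v 0 / 2) (b' := 8 * v 1) (c' := 0) (by ring) (by ring) (by ring)
  have : (q : E3 → ℝ) = fun v => v 0 * v 0 * (1 / 4) + v 1 * v 1 * 4 := by
    funext v; unfold q; ring
  rw [this]; exact h2

theorem pds_D (v : E3) : Pds D v (-(q v - 1) * v 0) (-(q v - 1) * (16 * v 1)) (-2 * v 2) := by
  have h2 := pds_coord2 v
  have hq := (pds_q v).sub (pds_const 1 v)
  have h := ((pds_const 1 v).sub (h2.mul h2)).sub (hq.mul hq)
  have h3 := h.congr (a' := -(q v - 1) * v 0) (b' := -(q v - 1) * (16 * v 1)) (c' := -2 * v 2)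
    (by ring) (by ring) (by ring)
  have : (D : E3 → ℝ) = fun v => 1 - v 2 * v 2 - (q v - 1) * (q v - 1) := by
    funext v; unfold D; ring
  rw [this]; exact h3

theorem pds_S {v : E3} (hv : v ∈ dom) :
    Pds S v (-((q v - 1) * v 0) / (2 * S v)) (-((q v - 1) * (8 * v 1)) / S v) (-v 2 / S v) := by
  have hS := (S_pos hv).ne'
  have hD : D v ≠ 0 := (show 0 < D v from hv).ne'
  have h := (pds_D v).sqrt hD
  have e : Real.sqrt (D v) = S v := rfl
  rw [e] at h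
  exact h.congr (by field_simp) (by field_simp; ring) (by field_simp)

/-- the partial derivatives of the components of `X` -/
theorem pds_X0 {v : E3} (hv : v ∈ dom) {s₀ s₁ s₂ : ℝ} (hs : Pds S v s₀ s₁ s₂) :
    Pds (fun v => X v 0) v
    ((v 2 - 4 * v 1 * s₀) / q v - (v 2 * v 0 - 4 * S v * v 1) * (v 0 / 2) / q v ^ 2)
    ((-4 * S v - 4 * v 1 * s₁) / q v - (v 2 * v 0 - 4 * S v * v 1) * (8 * v 1) / q v ^ 2)
    ((v 0 - 4 * v 1 * s₂) / q v) := by
  have hq := (q_pos hv).ne'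
  have h := (((pds_coord2 v).mul (pds_coord0 v)).sub
    (((pds_const 4 v).mul hs).mul (pds_coord1 v))).mul ((pds_q v).inv hq)
  have h3 := h.congr
    (a' := (v 2 - 4 * v 1 * s₀) / q v - (v 2 * v 0 - 4 * S v * v 1) * (v 0 / 2) / q v ^ 2)
    (b' := (-4 * S v - 4 * v 1 * s₁) / q v - (v 2 * v 0 - 4 * S v * v 1) * (8 * v 1) / q v ^ 2)
    (c' := (v 0 - 4 * v 1 * s₂) / q v) (by field_simp; ring) (by field_simp; ring)
    (by field_simp; ring)
  have : (fun v : E3 => X v 0) = fun v => (v 2 * v 0 - 4 * S v * v 1) * (q v)⁻¹ := by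
    funext v; rw [X_0, div_eq_mul_inv]
  rw [this]; exact h3

theorem pds_X1 {v : E3} (hv : v ∈ dom) {s₀ s₁ s₂ : ℝ} (hs : Pds S v s₀ s₁ s₂) :
    Pds (fun v => X v 1) v
    ((S v / 4 + v 0 / 4 * s₀) / q v - (v 2 * v 1 + S v * v 0 / 4) * (v 0 / 2) / q v ^ 2)
    ((v 2 + v 0 / 4 * s₁) / q v - (v 2 * v 1 + S v * v 0 / 4) * (8 * v 1) / q v ^ 2)
    ((v 1 + v 0 / 4 * s₂) / q v) := by
  have hq := (q_pos hv).ne'
  have h := (((pds_coord2 v).mul (pds_coord1 v)).add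
    (((pds_const (1 / 4) v).mul hs).mul (pds_coord0 v))).mul ((pds_q v).inv hq)
  have h3 := h.congr
    (a' := (S v / 4 + v 0 / 4 * s₀) / q v - (v 2 * v 1 + S v * v 0 / 4) * (v 0 / 2) / q v ^ 2)
    (b' := (v 2 + v 0 / 4 * s₁) / q v - (v 2 * v 1 + S v * v 0 / 4) * (8 * v 1) / q v ^ 2)
    (c' := (v 1 + v 0 / 4 * s₂) / q v) (by field_simp; ring) (by field_simp; ring)
    (by field_simp; ring)
  have : (fun v : E3 => X v 1) = fun v => (v 2 * v 1 + 1 / 4 * S v * v 0) * (q v)⁻¹ := by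
    funext v; rw [X_1, div_eq_mul_inv]; ring
  rw [this]; exact h3

theorem pds_X2 (v : E3) : Pds (fun v => X v 2) v (-v 0) (-16 * v 1) 0 := by
  have h := (pds_const 2 v).mul ((pds_const 1 v).sub (pds_q v))
  have h3 := h.congr (a' := -v 0) (b' := -16 * v 1) (c' := 0) (by ring) (by ring) (by ring)
  have : (fun v : E3 => X v 2) = fun v => 2 * (1 - q v) := by
    funext v; rw [X_2]
  rw [this]; exact h3

/-- `X · ∇q = 2 z` -/
theorem X_q {v : E3} (hv : v ∈ dom) : X v 0 * (v 0 / 2) + X v 1 * (8 * v 1) = 2 * v 2 := by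
  have hq := (q_pos hv).ne'
  have hq2 : q v = (v 0) ^ 2 / 4 + 4 * (v 1) ^ 2 := rfl
  rw [X_0, X_1]
  field_simp
  linear_combination (-16 * v 2) * hq2

/-- `X · ∇S = 0` -/
theorem X_S {v : E3} (hv : v ∈ dom) {s₀ s₁ s₂ : ℝ} (hs : Pds S v s₀ s₁ s₂) :
    X v 0 * s₀ + X v 1 * s₁ + X v 2 * s₂ = 0 := by
  have hS := (S_pos hv).ne'
  have h := X_q hv
  rw [← hs.pd0, ← hs.pd1, ← hs.pd2, (pds_S hv).pd0, (pds_S hv).pd1, (pds_S hv).pd2, X_2]
  field_simp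
  linear_combination (-2 * (q v - 1)) * h

theorem div_zero {v : E3} (hv : v ∈ dom) : divergence X v = 0 := by
  have hS := (S_pos hv).ne'
  have hq := (q_pos hv).ne'
  rw [divergence, (pds_X0 hv (pds_S hv)).pd0, (pds_X1 hv (pds_S hv)).pd1, (pds_X2 v).pd2]
  have hq2 : q v = (v 0) ^ 2 / 4 + 4 * (v 1) ^ 2 := rfl
  field_simp
  linear_combination (16 * v 2 * S v) * hq2

/-- the first partial derivatives of the pressure -/
theorem pds_p {v : E3} {a₀ b₀ c₀ a₁ b₁ c₁ a₂ b₂ c₂ : ℝ}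
    (h0 : Pds (fun v => X v 0) v a₀ b₀ c₀) (h1 : Pds (fun v => X v 1) v a₁ b₁ c₁)
    (h2 : Pds (fun v => X v 2) v a₂ b₂ c₂) :
    Pds p v (-v 0 - (X v 0 * a₀ + X v 1 * a₁ + X v 2 * a₂))
      (-v 1 - (X v 0 * b₀ + X v 1 * b₁ + X v 2 * b₂))
      (-4 * v 2 - (X v 0 * c₀ + X v 1 * c₁ + X v 2 * c₂)) := by
  have k0 := pds_coord0 v
  have k1 := pds_coord1 v
  have k2 := pds_coord2 v
  have h := ((((k0.mul k0).add (k1.mul k1)).add ((pds_const 4 v).mul (k2.mul k2))).mul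
    (pds_const (-1 / 2) v)).sub ((((h0.mul h0).add (h1.mul h1)).add (h2.mul h2)).mul
    (pds_const (1 / 2) v))
  have h3 := h.congr (a' := -v 0 - (X v 0 * a₀ + X v 1 * a₁ + X v 2 * a₂))
    (b' := -v 1 - (X v 0 * b₀ + X v 1 * b₁ + X v 2 * b₂))
    (c' := -4 * v 2 - (X v 0 * c₀ + X v 1 * c₁ + X v 2 * c₂))
    (by ring) (by ring) (by ring)
  have : (p : E3 → ℝ) = fun v => (v 0 * v 0 + v 1 * v 1 + 4 * (v 2 * v 2)) * (-1 / 2) -
      (X v 0 * X v 0 + X v 1 * X v 1 + X v 2 * X v 2) * (1 / 2) := by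
    funext v; unfold p; ring
  rw [this]; exact h3

/-- the force balance, componentwise: `(X · ∇) X = -(x, y, 4 z)` -/
theorem momentum {v : E3} (hv : v ∈ dom) {a₀ b₀ c₀ a₁ b₁ c₁ a₂ b₂ c₂ : ℝ}
    (h0 : Pds (fun v => X v 0) v a₀ b₀ c₀) (h1 : Pds (fun v => X v 1) v a₁ b₁ c₁)
    (h2 : Pds (fun v => X v 2) v a₂ b₂ c₂) :
    X v 0 * a₀ + X v 1 * b₀ + X v 2 * c₀ = -v 0 ∧
    X v 0 * a₁ + X v 1 * b₁ + X v 2 * c₁ = -v 1 ∧
    X v 0 * a₂ + X v 1 * b₂ + X v 2 * c₂ = -4 * v 2 := by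
  have hq := (q_pos hv).ne'
  have hSS := S_sq hv
  obtain ⟨s₀, s₁, s₂, hs⟩ : ∃ s₀ s₁ s₂ : ℝ, Pds S v s₀ s₁ s₂ := ⟨_, _, _, pds_S hv⟩
  have e1 := X_q hv
  have e2 := X_S hv hs
  have k0 : X v 0 * q v = v 2 * v 0 - 4 * S v * v 1 := by rw [X_0]; field_simp
  have k1 : X v 1 * q v = v 2 * v 1 + S v * v 0 / 4 := by rw [X_1]; field_simp
  have k2 : X v 2 = 2 * (1 - q v) := X_2 v
  rw [← h0.pd0, ← h0.pd1, ← h0.pd2, ← h1.pd0, ← h1.pd1, ← h1.pd2, ← h2.pd0, ← h2.pd1, ← h2.pd2,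
    (pds_X0 hv hs).pd0, (pds_X0 hv hs).pd1, (pds_X0 hv hs).pd2, (pds_X1 hv hs).pd0,
    (pds_X1 hv hs).pd1, (pds_X1 hv hs).pd2, (pds_X2 v).pd0, (pds_X2 v).pd1, (pds_X2 v).pd2]
  refine ⟨?_, ?_, ?_⟩
  · have e : X v 0 * ((v 2 - 4 * v 1 * s₀) / q v -
          (v 2 * v 0 - 4 * S v * v 1) * (v 0 / 2) / q v ^ 2) +
        X v 1 * ((-4 * S v - 4 * v 1 * s₁) / q v -
          (v 2 * v 0 - 4 * S v * v 1) * (8 * v 1) / q v ^ 2) +
        X v 2 * ((v 0 - 4 * v 1 * s₂) / q v) =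
        (v 2 * X v 0 - 4 * S v * X v 1 + v 0 * X v 2) / q v -
          4 * v 1 / q v * (X v 0 * s₀ + X v 1 * s₁ + X v 2 * s₂) -
          X v 0 / q v * (X v 0 * (v 0 / 2) + X v 1 * (8 * v 1)) := by
      rw [← k0]
      field_simp
      ring
    rw [e, e1, e2, k2]
    field_simp
    have : (-(v 2) * X v 0 - 4 * S v * X v 1) * q v = -(v 0) * (v 2 ^ 2 + S v ^ 2) := by
      linear_combination (-(v 2)) * k0 - 4 * S v * k1
    have h5 : q v * ((-(v 2) * X v 0 - 4 * S v * X v 1) - (-(v 0) * (2 - q v))) = 0 := by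
      linear_combination this - v 0 * hSS
    rcases mul_eq_zero.1 h5 with h6 | h6
    · exact absurd h6 hq
    · linear_combination h6
  · have e : X v 0 * ((S v / 4 + v 0 / 4 * s₀) / q v -
          (v 2 * v 1 + S v * v 0 / 4) * (v 0 / 2) / q v ^ 2) +
        X v 1 * ((v 2 + v 0 / 4 * s₁) / q v -
          (v 2 * v 1 + S v * v 0 / 4) * (8 * v 1) / q v ^ 2) +
        X v 2 * ((v 1 + v 0 / 4 * s₂) / q v) =
        (v 2 * X v 1 + S v / 4 * X v 0 + v 1 * X v 2) / q v +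
          v 0 / 4 / q v * (X v 0 * s₀ + X v 1 * s₁ + X v 2 * s₂) -
          X v 1 / q v * (X v 0 * (v 0 / 2) + X v 1 * (8 * v 1)) := by
      rw [← k1]
      field_simp
      ring
    rw [e, e1, e2, k2]
    field_simp
    have : (-(v 2) * X v 1 + S v / 4 * X v 0) * q v = -(v 1) * (v 2 ^ 2 + S v ^ 2) := by
      linear_combination (-(v 2)) * k1 + S v / 4 * k0
    have h5 : q v * ((-(v 2) * X v 1 + S v / 4 * X v 0) - (-(v 1) * (2 - q v))) = 0 := by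
      linear_combination this - v 1 * hSS
    rcases mul_eq_zero.1 h5 with h6 | h6
    · exact absurd h6 hq
    · linear_combination 4 * h6
  · linear_combination (-2) * e1

theorem force_eq {v : E3} (hv : v ∈ dom) : cross (curl X v) (X v) = grad p v := by
  have h0 := pds_X0 hv (pds_S hv)
  have h1 := pds_X1 hv (pds_S hv)
  have h2 := pds_X2 v
  obtain ⟨a₀, b₀, c₀, h0⟩ : ∃ a b c : ℝ, Pds (fun v => X v 0) v a b c := ⟨_, _, _, h0⟩
  obtain ⟨a₁, b₁, c₁, h1⟩ : ∃ a b c : ℝ, Pds (fun v => X v 1) v a b c := ⟨_, _, _, h1⟩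
  obtain ⟨a₂, b₂, c₂, h2⟩ : ∃ a b c : ℝ, Pds (fun v => X v 2) v a b c := ⟨_, _, _, h2⟩
  obtain ⟨m0, m1, m2⟩ := momentum hv h0 h1 h2
  have hp := pds_p h0 h1 h2
  rw [grad, hp.pd0, hp.pd1, hp.pd2, curl, h0.pd1, h0.pd2, h1.pd0, h1.pd2, h2.pd0, h2.pd1, cross]
  ext i
  fin_cases i
  · simp only [Fin.zero_eta, Fin.isValue, Matrix.cons_val_zero,
      Matrix.cons_val_one, Matrix.cons_val]
    linear_combination m0
  · simp only [Fin.mk_one, Fin.isValue, Matrix.cons_val_zero,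
      Matrix.cons_val_one, Matrix.cons_val]
    linear_combination m1
  · simp only [Fin.reduceFinMk, Fin.isValue, Matrix.cons_val_zero,
      Matrix.cons_val_one, Matrix.cons_val]
    linear_combination m2

end Pool.Agent.H54.Grad
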