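import Pool.Agent.H54.GradB

/-!
# The explicit flow: smoothness (MP_919d81_mp)
-/

set_option autoImplicit false

open scoped ContDiff Topology
open Set Metric Complex

namespace Pool.Agent.H54.Grad

section gen

variable {E : Type} [NormedAddCommGroup E] [NormedSpace ℝ E]

theorem cdo_ofReal {f : E → ℝ} {s : Set E} (hf : ContDiffOn ℝ ∞ f s) :
    ContDiffOn ℝ ∞ (fun x => ((f x : ℝ) : ℂ)) s :=
  ofRealCLM.contDiff.comp_contDiffOn hf

theorem cdo_mk {f h : E → ℝ} {s : Set E} (hf : ContDiffOn ℝ ∞ f s) (hh : ContDiffOn ℝ ∞ h s) :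
    ContDiffOn ℝ ∞ (fun x => (⟨f x, h x⟩ : ℂ)) s := by
  have : (fun x => (⟨f x, h x⟩ : ℂ)) = fun x => ((f x : ℝ) : ℂ) + ((h x : ℝ) : ℂ) * I := by
    funext x
    apply Complex.ext <;> simp
  rw [this]
  exact (cdo_ofReal hf).add ((cdo_ofReal hh).mul contDiffOn_const)

theorem cdo_conj {f : E → ℂ} {s : Set E} (hf : ContDiffOn ℝ ∞ f s) :
    ContDiffOn ℝ ∞ (fun x => starRingEnd ℂ (f x)) s :=
  conjCLE.contDiff.comp_contDiffOn hf

theorem cdo_re {f : E → ℂ} {s : Set E} (hf : ContDiffOn ℝ ∞ f s) :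
    ContDiffOn ℝ ∞ (fun x => (f x).re) s :=
  reCLM.contDiff.comp_contDiffOn hf

theorem cdo_im {f : E → ℂ} {s : Set E} (hf : ContDiffOn ℝ ∞ f s) :
    ContDiffOn ℝ ∞ (fun x => (f x).im) s :=
  imCLM.contDiff.comp_contDiffOn hf

theorem cdo_normSq {f : E → ℂ} {s : Set E} (hf : ContDiffOn ℝ ∞ f s) :
    ContDiffOn ℝ ∞ (fun x => normSq (f x)) s := by
  have : (fun x => normSq (f x)) = fun x => (f x).re * (f x).re + (f x).im * (f x).im := by
    funext x; rw [normSq_apply]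
  rw [this]
  exact ((cdo_re hf).mul (cdo_re hf)).add ((cdo_im hf).mul (cdo_im hf))

end gen

theorem cd_coord (i : Fin 3) : ContDiff ℝ ∞ (fun v : E3 => v i) := (dx i).contDiff

theorem cd_q : ContDiff ℝ ∞ q := by
  have h := (((cd_coord 0).pow 2).div_const 4).add (contDiff_const (c := (4 : ℝ)).mul ((cd_coord 1).pow 2))
  exact h

theorem cd_D : ContDiff ℝ ∞ D := by
  have h := ((contDiff_const (c := (1 : ℝ)).sub ((cd_coord 2).pow 2))).sub
    ((cd_q.sub (contDiff_const (c := (1 : ℝ)))).pow 2)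
  exact h

theorem isOpen_dom : IsOpen dom := isOpen_lt continuous_const cd_D.continuous

theorem cdo_S : ContDiffOn ℝ ∞ S dom :=
  cd_D.contDiffOn.sqrt fun x hx => (show 0 < D x from hx).ne'

theorem cdo_X : ContDiffOn ℝ ∞ X dom := by
  rw [contDiffOn_euclidean]
  intro i
  have h0 := (cd_coord 0).contDiffOn (s := dom)
  have h1 := (cd_coord 1).contDiffOn (s := dom)
  have h2 := (cd_coord 2).contDiffOn (s := dom)
  have hq := cd_q.contDiffOn (s := dom)
  have hq0 : ∀ x ∈ dom, q x ≠ 0 := fun x hx => (q_pos hx).ne'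
  fin_cases i
  · exact (((h2.mul h0).sub (((contDiffOn_const (c := (4 : ℝ))).mul cdo_S).mul h1))).div hq hq0
  · exact (((h2.mul h1).add ((cdo_S.mul h0).div_const 4))).div hq hq0
  · exact (contDiffOn_const (c := (2 : ℝ))).mul ((contDiffOn_const (c := (1 : ℝ))).sub hq)

theorem cdo_p : ContDiffOn ℝ ∞ p dom := by
  have h0 := (cd_coord 0).contDiffOn (s := dom)
  have h1 := (cd_coord 1).contDiffOn (s := dom)
  have h2 := (cd_coord 2).contDiffOn (s := dom)
  have k := contDiffOn_euclidean.1 cdo_X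
  exact ((((((h0.pow 2).add (h1.pow 2)).add ((contDiffOn_const (c := (4 : ℝ))).mul (h2.pow 2)))).neg).div_const 2).sub
    ((((k 0).pow 2).add ((k 1).pow 2)).add ((k 2).pow 2) |>.div_const 2)

theorem cdo_Rv : ContDiffOn ℝ ∞ Rv dom := by
  refine ContDiffOn.sqrt (((contDiffOn_const (c := (1 : ℝ))).add cdo_S).div_const 2) fun x hx => ?_
  have := S_pos hx
  positivity

theorem cdo_uv : ContDiffOn ℝ ∞ uv dom := by
  have h0 := (cd_coord 0).contDiffOn (s := dom)
  have h1 := (cd_coord 1).contDiffOn (s := dom)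
  have h2 := (cd_coord 2).contDiffOn (s := dom)
  have hq := cd_q.contDiffOn (s := dom)
  have hinv : ContDiffOn ℝ ∞ (fun v => (2 * q v * Rv v)⁻¹) dom := by
    refine ContDiffOn.inv (((contDiffOn_const (c := (2 : ℝ))).mul hq).mul cdo_Rv) fun x hx => ?_
    have := q_pos hx
    have := Rv_pos x
    positivity
  have h := ((cdo_mk (h0.div_const 2) ((contDiffOn_const (c := (2 : ℝ))).mul h1)).mul
    (cdo_mk (cdo_S.add hq) h2.neg)).mul (cdo_ofReal hinv)
  refine h.congr fun v hv => ?_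
  rw [uv, al, wv]
  push_cast
  rw [div_div, div_eq_mul_inv]

theorem cdo_Hv : ContDiffOn ℝ ∞ Hv dom := by
  have h2 := (cd_coord 2).contDiffOn (s := dom)
  have hq := cd_q.contDiffOn (s := dom)
  exact (cdo_mk h2 (hq.sub (contDiffOn_const (c := (1 : ℝ))))).mul ((cdo_conj cdo_uv).pow 2)

/-- the domain of the parametrisation -/
def pdom : Set (ℂ × ℂ) := {x | normSq x.1 < 1}

theorem isOpen_pdom : IsOpen pdom :=
  isOpen_lt (continuous_normSq.comp continuous_fst) continuous_const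

theorem cdo_Sg : ContDiffOn ℝ ∞ (fun x : ℂ × ℂ => Sg x.1) pdom := by
  refine ContDiffOn.sqrt ((contDiffOn_const (c := (1 : ℝ))).sub (cdo_normSq contDiffOn_fst))
    fun x hx => ?_
  have : normSq x.1 < 1 := hx
  exact (by linarith : 0 < 1 - normSq x.1).ne'

theorem cdo_Rg : ContDiffOn ℝ ∞ (fun x : ℂ × ℂ => Rg x.1) pdom := by
  refine ContDiffOn.sqrt (((contDiffOn_const (c := (1 : ℝ))).add cdo_Sg).div_const 2) fun x hx => ?_
  have := Sg_pos (show normSq x.1 < 1 from hx)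
  positivity

theorem cdo_wg : ContDiffOn ℝ ∞ (fun x : ℂ × ℂ => wg x.1 x.2) pdom := by
  have hinv : ContDiffOn ℝ ∞ (fun x : ℂ × ℂ => (Rg x.1)⁻¹) pdom :=
    ContDiffOn.inv cdo_Rg fun x hx => (Rg_pos x.1).ne'
  have h := ((cdo_ofReal cdo_Rg).mul contDiffOn_snd).add (((contDiffOn_const (c := (I / 2 : ℂ))).mul
    ((cdo_conj contDiffOn_fst).mul (cdo_ofReal hinv))).mul (cdo_conj contDiffOn_snd))
  refine h.congr fun x _ => ?_
  rw [wg, div_eq_mul_inv (starRingEnd ℂ x.1)]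
  push_cast
  rfl

theorem cdo_g : ContDiffOn ℝ ∞ (fun x : ℂ × ℂ => g x.1 x.2) pdom := by
  rw [contDiffOn_euclidean]
  intro i
  fin_cases i
  · exact (contDiffOn_const (c := (2 : ℝ))).mul (cdo_re cdo_wg)
  · exact (cdo_im cdo_wg).div_const 2
  · exact cdo_re (contDiffOn_fst.mul (contDiffOn_snd.pow 2))

end Pool.Agent.H54.Grad
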