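import Pool.Agent.H54.GradC

/-!
# The explicit flow: the solid tori (MP_919d81_mp)
-/

set_option autoImplicit false

open scoped ContDiff Topology
open Set Metric Complex

namespace Pool.Agent.H54.Grad

/-- the solid torus of radius `r` -/
def T (r : ℝ) : Set E3 := {v | v ∈ dom ∧ ‖Hv v - Hs‖ ≤ r}

/-- the torus of radius `r` -/
def L (r : ℝ) : Set E3 := {v | v ∈ dom ∧ ‖Hv v - Hs‖ = r}

theorem normSq_lt_iff (z : ℂ) : normSq z < 1 ↔ ‖z‖ < 1 := by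
  rw [normSq_eq_norm_sq, sq_lt_one_iff₀ (norm_nonneg z)]

theorem norm_Hs : ‖Hs‖ = 15 / 32 := by
  have : Hs = ((-(15 / 32) : ℝ) : ℂ) * I := by
    apply Complex.ext <;> simp [Hs]
  rw [this, norm_mul, norm_I, mul_one, norm_real, Real.norm_eq_abs]
  norm_num [abs_of_neg]

theorem in_disc {d : ℂ} {r : ℝ} (hr : |r| ≤ 1 / 2) (hd : ‖d‖ ≤ 1) : normSq (Hs + r * d) < 1 := by
  rw [normSq_lt_iff]
  calc ‖Hs + r * d‖ ≤ ‖Hs‖ + ‖(r : ℂ) * d‖ := norm_add_le _ _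
    _ ≤ 15 / 32 + 1 / 2 * 1 := by
        rw [norm_Hs, norm_mul, norm_real, Real.norm_eq_abs]
        gcongr
    _ < 1 := by norm_num

theorem in_disc' {r : ℝ} (hr : |r| ≤ 1 / 2) {H : ℂ} (hH : ‖H - Hs‖ ≤ r) : normSq H < 1 := by
  rw [normSq_lt_iff]
  calc ‖H‖ = ‖Hs + (H - Hs)‖ := by rw [add_sub_cancel]
    _ ≤ ‖Hs‖ + ‖H - Hs‖ := norm_add_le _ _
    _ ≤ 15 / 32 + 1 / 2 := by
        rw [norm_Hs]
        have := (abs_le.1 hr).2
        linarith
    _ < 1 := by norm_num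

theorem sph_iff (u : ℂ) : u ∈ sphere (0 : ℂ) 1 ↔ normSq u = 1 := by
  rw [mem_sphere_zero_iff_norm, normSq_eq_norm_sq]
  constructor
  · intro h; rw [h]; norm_num
  · intro h
    nlinarith [norm_nonneg u]

/-- the parametrisation as a function on `ℂ × ℂ` -/
noncomputable def gp (x : ℂ × ℂ) : E3 := g x.1 x.2

theorem cdo_gp : ContDiffOn ℝ ∞ gp pdom := cdo_g

/-- the diffeomorphisms -/
theorem diffeo {r : ℝ} (hr : 0 < r) (hr1 : r ≤ 1 / 2) {K : Set ℂ} (hK : K ⊆ closedBall 0 1) :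
    Diffeomorphic {v | v ∈ dom ∧ (Hv v - Hs) / r ∈ K} (K ×ˢ sphere (0 : ℂ) 1) := by
  have hr' : |r| ≤ 1 / 2 := by rw [abs_of_pos hr]; exact hr1
  have hrc : (r : ℂ) ≠ 0 := by exact_mod_cast hr.ne'
  have hd : ∀ d ∈ K, normSq (Hs + r * d) < 1 := fun d hd =>
    in_disc hr' (by simpa using hK hd)
  refine ⟨fun v => ((Hv v - Hs) / r, uv v), fun x => gp (Hs + r * x.1, x.2), ?_, ?_, ?_, ?_, ?_, ?_⟩
  · refine ⟨dom, _, isOpen_dom, fun v hv => hv.1, ?_, fun v _ => rfl⟩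
    exact ((cdo_Hv.sub contDiffOn_const).div_const _).prodMk cdo_uv
  · refine ⟨{x : ℂ × ℂ | normSq (Hs + r * x.1) < 1}, _, ?_, ?_, ?_, fun x _ => rfl⟩
    · refine isOpen_lt (continuous_normSq.comp ?_) continuous_const
      fun_prop
    · rintro ⟨d, u⟩ ⟨h1, _⟩
      exact hd d h1
    · have h1 : ContDiffOn ℝ ∞ (fun x : ℂ × ℂ => ((Hs + r * x.1, x.2) : ℂ × ℂ))
          {x : ℂ × ℂ | normSq (Hs + r * x.1) < 1} :=
        (contDiffOn_const.add (contDiffOn_const.mul contDiffOn_fst)).prodMk contDiffOn_snd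
      have h3 : MapsTo (fun x : ℂ × ℂ => ((Hs + r * x.1, x.2) : ℂ × ℂ))
          {x : ℂ × ℂ | normSq (Hs + r * x.1) < 1} pdom := fun x hx => hx
      have h2 : ContDiffOn ℝ ∞ (gp ∘ fun x : ℂ × ℂ => ((Hs + r * x.1, x.2) : ℂ × ℂ))
          {x : ℂ × ℂ | normSq (Hs + r * x.1) < 1} := ContDiffOn.comp cdo_gp h1 h3
      exact h2
  · rintro v ⟨h1, h2⟩
    exact ⟨h2, (sph_iff _).2 (uv_normSq h1)⟩
  · rintro ⟨d, u⟩ ⟨h1, h2⟩
    have hu := (sph_iff u).1 h2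
    refine ⟨g_mem (hd d h1) hu, ?_⟩
    show (Hv (g (Hs + r * d) u) - Hs) / r ∈ K
    rw [Hv_g (hd d h1) hu, add_sub_cancel_left, mul_div_cancel_left₀ _ hrc]
    exact h1
  · rintro v ⟨h1, h2⟩
    show g (Hs + r * ((Hv v - Hs) / r)) (uv v) = v
    rw [mul_div_cancel₀ _ hrc, add_sub_cancel]
    exact g_Hv h1
  · rintro ⟨d, u⟩ ⟨h1, h2⟩
    have hu := (sph_iff u).1 h2
    show ((Hv (g (Hs + r * d) u) - Hs) / r, uv (g (Hs + r * d) u)) = (d, u)
    rw [Hv_g (hd d h1) hu, uv_g (hd d h1) hu, add_sub_cancel_left, mul_div_cancel_left₀ _ hrc]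

theorem T_eq {r : ℝ} (hr : 0 < r) : T r = {v | v ∈ dom ∧ (Hv v - Hs) / r ∈ closedBall (0 : ℂ) 1} := by
  ext v
  simp only [T, mem_ofPred_eq, mem_closedBall_zero_iff, norm_div, norm_real, Real.norm_eq_abs,
    abs_of_pos hr, div_le_one hr]

theorem L_eq {r : ℝ} (hr : 0 < r) : L r = {v | v ∈ dom ∧ (Hv v - Hs) / r ∈ sphere (0 : ℂ) 1} := by
  ext v
  simp only [L, mem_ofPred_eq, mem_sphere_zero_iff_norm, norm_div, norm_real, Real.norm_eq_abs,
    abs_of_pos hr, div_eq_one_iff_eq hr.ne']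

theorem T_diffeo {r : ℝ} (hr : 0 < r) (hr1 : r ≤ 1 / 2) :
    Diffeomorphic (T r) (closedBall (0 : ℂ) 1 ×ˢ sphere (0 : ℂ) 1) := by
  rw [T_eq hr]; exact diffeo hr hr1 le_rfl

theorem L_diffeo {r : ℝ} (hr : 0 < r) (hr1 : r ≤ 1 / 2) :
    Diffeomorphic (L r) (sphere (0 : ℂ) 1 ×ˢ sphere (0 : ℂ) 1) := by
  rw [L_eq hr]; exact diffeo hr hr1 sphere_subset_closedBall

theorem Diffeomorphic.isCompact {E F : Type} [NormedAddCommGroup E] [NormedSpace ℝ E]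
    [NormedAddCommGroup F] [NormedSpace ℝ F] {s : Set E} {t : Set F} (h : Diffeomorphic s t)
    (ht : IsCompact t) : IsCompact s := by
  obtain ⟨f, g, hf, hg, h1, h2, h3, h4⟩ := h
  have : s = g '' t := by
    ext x
    constructor
    · intro hx; exact ⟨f x, h1 hx, h3 x hx⟩
    · rintro ⟨y, hy, rfl⟩; exact h2 hy
  rw [this]
  obtain ⟨U, g', -, hU, hg', he⟩ := hg
  exact ht.image_of_continuousOn ((hg'.continuousOn.mono hU).congr he)

theorem T_compact {r : ℝ} (hr : 0 < r) (hr1 : r ≤ 1 / 2) : IsCompact (T r) :=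
  (T_diffeo hr hr1).isCompact ((isCompact_closedBall _ _).prod (isCompact_sphere _ _))

/-- the radial curve -/
noncomputable def rad (v : E3) (e : ℝ) : E3 := g (Hs + ((1 + e : ℝ) : ℂ) * (Hv v - Hs)) (uv v)

theorem rad_zero {v : E3} (hv : v ∈ dom) : rad v 0 = v := by
  rw [rad]
  simp only [add_zero, ofReal_one, one_mul, add_sub_cancel]
  exact g_Hv hv

theorem rad_small {v : E3} (hv : v ∈ dom) :
    ∀ᶠ e in 𝓝 (0 : ℝ), normSq (Hs + ((1 + e : ℝ) : ℂ) * (Hv v - Hs)) < 1 := by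
  have hc : Continuous fun e : ℝ => normSq (Hs + ((1 + e : ℝ) : ℂ) * (Hv v - Hs)) := by
    refine continuous_normSq.comp ?_
    fun_prop
  refine (hc.tendsto 0).eventually (gt_mem_nhds ?_ : ∀ᶠ y in 𝓝 _, y < (1 : ℝ))
  simpa using Hv_lt hv

theorem rad_Hv {v : E3} (hv : v ∈ dom) :
    ∀ᶠ e in 𝓝 (0 : ℝ), rad v e ∈ dom ∧ Hv (rad v e) - Hs = ((1 + e : ℝ) : ℂ) * (Hv v - Hs) := by
  filter_upwards [rad_small hv] with e he
  have hu := uv_normSq hv
  refine ⟨g_mem he hu, ?_⟩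
  rw [rad, Hv_g he hu, add_sub_cancel_left]

theorem differentiableAt_rad {v : E3} (hv : v ∈ dom) : DifferentiableAt ℝ (rad v) 0 := by
  have h1 : DifferentiableAt ℝ (fun e : ℝ => ((Hs + ((1 + e : ℝ) : ℂ) * (Hv v - Hs), uv v) : ℂ × ℂ)) 0 := by
    refine DifferentiableAt.prodMk ?_ (differentiableAt_const _)
    refine (differentiableAt_const _).add (DifferentiableAt.mul_const ?_ _)
    exact (ofRealCLM.differentiableAt).comp (0 : ℝ) ((differentiableAt_const _).add differentiableAt_id)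
  have h2 : DifferentiableAt ℝ gp
      ((fun e : ℝ => ((Hs + ((1 + e : ℝ) : ℂ) * (Hv v - Hs), uv v) : ℂ × ℂ)) 0) := by
    have hmem : ((fun e : ℝ => ((Hs + ((1 + e : ℝ) : ℂ) * (Hv v - Hs), uv v) : ℂ × ℂ)) 0) ∈ pdom := by
      show normSq (Hs + ((1 + (0 : ℝ) : ℝ) : ℂ) * (Hv v - Hs)) < 1
      simpa using Hv_lt hv
    exact (cdo_gp.contDiffAt (isOpen_pdom.mem_nhds hmem)).differentiableAt (by simp)
  have h3 := DifferentiableAt.comp (g := gp)
    (f := fun e : ℝ => ((Hs + ((1 + e : ℝ) : ℂ) * (Hv v - Hs), uv v) : ℂ × ℂ)) (0 : ℝ) h2 h1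
  exact h3

theorem continuousAt_rad {v : E3} (hv : v ∈ dom) : ContinuousAt (rad v) 0 :=
  (differentiableAt_rad hv).continuousAt

theorem ball_subset_interior (r : ℝ) : {v | v ∈ dom ∧ ‖Hv v - Hs‖ < r} ⊆ interior (T r) := by
  refine interior_maximal (fun v hv => ⟨hv.1, hv.2.le⟩) ?_
  have h : ContinuousOn (fun v => ‖Hv v - Hs‖) dom := (cdo_Hv.continuousOn.sub continuousOn_const).norm
  exact h.isOpen_inter_preimage isOpen_dom isOpen_Iio

theorem not_interior {r : ℝ} (hr : 0 < r) {v : E3} (hv : v ∈ L r) : v ∉ interior (T r) := by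
  intro hi
  have h1 : ∀ᶠ e in 𝓝 (0 : ℝ), rad v e ∈ interior (T r) := by
    refine (continuousAt_rad hv.1).eventually ?_
    rw [rad_zero hv.1]
    exact isOpen_interior.mem_nhds hi
  have h2 := (h1.and (rad_Hv hv.1))
  obtain ⟨e, he, h3, h4, h5⟩ : ∃ e : ℝ, 0 < e ∧ rad v e ∈ interior (T r) ∧ rad v e ∈ dom ∧
      Hv (rad v e) - Hs = ((1 + e : ℝ) : ℂ) * (Hv v - Hs) := by
    have h6 : ∃ᶠ e in 𝓝[>] (0 : ℝ), True := by
      simp only [Filter.frequently_true_iff_neBot]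
      infer_instance
    have h7 : ∀ᶠ e in 𝓝[>] (0 : ℝ), 0 < e := self_mem_nhdsWithin
    obtain ⟨e, ⟨he, h8⟩⟩ := (h7.and (h2.filter_mono nhdsWithin_le_nhds)).exists
    exact ⟨e, he, h8⟩
  have h6 := (interior_subset h3).2
  rw [h5, norm_mul, hv.2, norm_real, Real.norm_eq_abs, abs_of_pos (by linarith)] at h6
  nlinarith

theorem frontier_T {r : ℝ} (hr : 0 < r) (hr1 : r ≤ 1 / 2) : frontier (T r) = L r := by
  have hc := (T_compact hr hr1).isClosed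
  rw [hc.frontier_eq]
  ext v
  constructor
  · rintro ⟨h1, h2⟩
    refine ⟨h1.1, le_antisymm h1.2 ?_⟩
    by_contra h3
    exact h2 (ball_subset_interior r ⟨h1.1, not_le.1 h3⟩)
  · intro h
    exact ⟨⟨h.1, h.2.le⟩, not_interior hr h⟩

theorem normSq_sub (v : E3) : normSq (Hv v - Hs) = ‖Hv v - Hs‖ ^ 2 := normSq_eq_norm_sq _

theorem cdo_N : ContDiffOn ℝ ∞ (fun v => normSq (Hv v - Hs)) dom :=
  cdo_normSq (cdo_Hv.sub contDiffOn_const)

/-- the derivative of `|Hv - Hs|²` does not vanish off the axis -/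
theorem fderiv_N {v : E3} (hv : v ∈ dom) (h0 : Hv v ≠ Hs) :
    fderiv ℝ (fun v => normSq (Hv v - Hs)) v ≠ 0 := by
  intro hF
  have hd : DifferentiableAt ℝ (fun v => normSq (Hv v - Hs)) v :=
    (cdo_N.contDiffAt (isOpen_dom.mem_nhds hv)).differentiableAt (by simp)
  have h1 : HasFDerivAt (fun v => normSq (Hv v - Hs)) (0 : E3 →L[ℝ] ℝ) (rad v 0) := by
    rw [rad_zero hv, ← hF]; exact hd.hasFDerivAt
  have h2 := h1.comp_hasDerivAt (0 : ℝ) (differentiableAt_rad hv).hasDerivAt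
  have h3 : HasDerivAt (fun e : ℝ => (1 + e) ^ 2 * normSq (Hv v - Hs)) (2 * normSq (Hv v - Hs)) 0 := by
    have := (((hasDerivAt_id (0 : ℝ)).const_add 1).pow 2).mul_const (normSq (Hv v - Hs))
    simpa using this
  have h4 : (fun e : ℝ => (1 + e) ^ 2 * normSq (Hv v - Hs)) =ᶠ[𝓝 0]
      ((fun v => normSq (Hv v - Hs)) ∘ rad v) := by
    filter_upwards [rad_Hv hv] with e he
    show (1 + e) ^ 2 * normSq (Hv v - Hs) = normSq (Hv (rad v e) - Hs)
    rw [he.2, map_mul, normSq_ofReal]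
    ring
  have h5 := (h4.hasDerivAt_iff.1 h3).unique h2
  simp only [zero_apply] at h5
  have h6 : normSq (Hv v - Hs) = 0 := by linarith
  exact h0 (sub_eq_zero.1 (normSq_eq_zero.1 h6))

theorem T_regular {r : ℝ} (hr : 0 < r) (hr1 : r ≤ 1 / 2) : IsCompactRegularDomain (T r) := by
  refine ⟨T_compact hr hr1, fun x hx => ?_⟩
  rw [frontier_T hr hr1] at hx
  refine ⟨dom, fun v => normSq (Hv v - Hs) - r ^ 2, isOpen_dom, hx.1,
    cdo_N.sub contDiffOn_const, ?_, ?_, ?_⟩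
  · show normSq (Hv x - Hs) - r ^ 2 = 0
    rw [normSq_sub, hx.2, sub_self]
  · rw [fderiv_sub_const]
    refine fderiv_N hx.1 fun h => ?_
    have := hx.2
    rw [h, sub_self, norm_zero] at this
    exact hr.ne this
  · intro y hy
    show y ∈ T r ↔ normSq (Hv y - Hs) - r ^ 2 ≤ 0
    rw [normSq_sub, sub_nonpos, sq_le_sq₀ (norm_nonneg _) hr.le]
    exact ⟨fun h => h.2, fun h => ⟨hy, h⟩⟩

theorem T_solid {r : ℝ} (hr : 0 < r) (hr1 : r ≤ 1 / 2) : IsSolidToroidalDomain (T r) :=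
  ⟨T_regular hr hr1, T_diffeo hr hr1⟩

end Pool.Agent.H54.Grad
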