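import Mathlib

/-!
# MHD equilibria with toroidally nested level sets: definitions (MP_919d81_mp)

`ℝ³` is `EuclideanSpace ℝ (Fin 3)`; the plane is `ℂ`, so that `𝔻² × 𝕊¹` and `𝕊¹ × 𝕊¹` are the subsets
`closedBall 0 1 ×ˢ sphere 0 1` and `sphere 0 1 ×ˢ sphere 0 1` of `ℂ × ℂ`.
-/

set_option autoImplicit false

open scoped ContDiff Topology
open Set Metric

namespace Pool.Agent.H54.Grad

/-- `ℝ³` -/
abbrev E3 : Type := EuclideanSpace ℝ (Fin 3)

/-- The map `f` is smooth on the (arbitrary) subset `s`: it agrees on `s` with a map which is `C^∞` on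
an open set containing `s`. -/
def SmoothOnSet {E F : Type} [NormedAddCommGroup E] [NormedSpace ℝ E] [NormedAddCommGroup F]
    [NormedSpace ℝ F] (f : E → F) (s : Set E) : Prop :=
  ∃ (U : Set E) (g : E → F), IsOpen U ∧ s ⊆ U ∧ ContDiffOn ℝ ∞ g U ∧ EqOn f g s

/-- The subsets `s` and `t` are diffeomorphic: there are mutually inverse bijections between `s` and
`t`, both of them smooth. -/
def Diffeomorphic {E F : Type} [NormedAddCommGroup E] [NormedSpace ℝ E] [NormedAddCommGroup F]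
    [NormedSpace ℝ F] (s : Set E) (t : Set F) : Prop :=
  ∃ (f : E → F) (g : F → E), SmoothOnSet f s ∧ SmoothOnSet g t ∧ MapsTo f s t ∧ MapsTo g t s ∧
    (∀ x ∈ s, g (f x) = x) ∧ ∀ y ∈ t, f (g y) = y

/-- `M` is a compact regular domain of `ℝ³` (a compact 3-dimensional submanifold with smooth
boundary): `M` is compact, and near each point `x` of its boundary it is the sublevel set `F ≤ 0` of a
smooth function `F` with `F x = 0` and `dF x ≠ 0`. -/
def IsCompactRegularDomain (M : Set E3) : Prop :=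
  IsCompact M ∧ ∀ x ∈ frontier M, ∃ (U : Set E3) (F : E3 → ℝ), IsOpen U ∧ x ∈ U ∧
    ContDiffOn ℝ ∞ F U ∧ F x = 0 ∧ fderiv ℝ F x ≠ 0 ∧ ∀ y ∈ U, (y ∈ M ↔ F y ≤ 0)

/-- A solid toroidal domain: a compact regular domain diffeomorphic to `𝔻² × 𝕊¹`. -/
def IsSolidToroidalDomain (M : Set E3) : Prop :=
  IsCompactRegularDomain M ∧
    Diffeomorphic M (closedBall (0 : ℂ) 1 ×ˢ sphere (0 : ℂ) 1)

/-- the partial derivative `∂f/∂x_i` -/
noncomputable def pd (i : Fin 3) (f : E3 → ℝ) (x : E3) : ℝ :=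
  fderiv ℝ f x (EuclideanSpace.single i 1)

/-- the gradient of `f` -/
noncomputable def grad (f : E3 → ℝ) (x : E3) : E3 := !₂[pd 0 f x, pd 1 f x, pd 2 f x]

/-- the divergence of the vector field `X` -/
noncomputable def divergence (X : E3 → E3) (x : E3) : ℝ :=
  pd 0 (fun y => X y 0) x + pd 1 (fun y => X y 1) x + pd 2 (fun y => X y 2) x

/-- the curl of the vector field `X` -/
noncomputable def curl (X : E3 → E3) (x : E3) : E3 :=
  !₂[pd 1 (fun y => X y 2) x - pd 2 (fun y => X y 1) x,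
    pd 2 (fun y => X y 0) x - pd 0 (fun y => X y 2) x,
    pd 0 (fun y => X y 1) x - pd 1 (fun y => X y 0) x]

/-- the cross product `a × b` -/
noncomputable def cross (a b : E3) : E3 :=
  !₂[a 1 * b 2 - a 2 * b 1, a 2 * b 0 - a 0 * b 2, a 0 * b 1 - a 1 * b 0]

/-- The vector `v` is tangent at `x` to the boundary of `M`: it is the velocity at time `0` of a curve
which starts at `x` and runs in the boundary of `M`. -/
def TangentToBoundary (M : Set E3) (x v : E3) : Prop :=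
  ∃ c : ℝ → E3, c 0 = x ∧ HasDerivAt c v 0 ∧ ∀ᶠ t in 𝓝 (0 : ℝ), c t ∈ frontier M

/-- `(X, p)` is an MHD equilibrium on `M`: `X` and `p` are smooth on (an open neighbourhood of) `M`,
`curl X × X = ∇p` and `div X = 0` in `M`, and `X` is tangent to `∂M`. -/
structure IsMHDEquilibrium (M : Set E3) (X : E3 → E3) (p : E3 → ℝ) : Prop where
  smooth_X : ∃ U : Set E3, IsOpen U ∧ M ⊆ U ∧ ContDiffOn ℝ ∞ X U
  smooth_p : ∃ U : Set E3, IsOpen U ∧ M ⊆ U ∧ ContDiffOn ℝ ∞ p U
  force : ∀ x ∈ M, cross (curl X x) (X x) = grad p x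
  div_free : ∀ x ∈ M, divergence X x = 0
  tangent : ∀ x ∈ frontier M, TangentToBoundary M x (X x)

/-- `γ` is a compact embedded 1-dimensional submanifold of `ℝ³`: it is compact and near each of its
points it is the zero set of a smooth map to the plane which is a submersion there. -/
def IsCompactCurve (γ : Set E3) : Prop :=
  IsCompact γ ∧ ∀ x ∈ γ, ∃ (U : Set E3) (F : E3 → ℂ), IsOpen U ∧ x ∈ U ∧ ContDiffOn ℝ ∞ F U ∧
    Function.Surjective (fderiv ℝ F x) ∧ ∀ y ∈ U, (y ∈ γ ↔ F y = 0)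

/-- the level set `{x ∈ M : p x = c}` -/
def levelSet (M : Set E3) (p : E3 → ℝ) (c : ℝ) : Set E3 := {x | x ∈ M ∧ p x = c}

/-- `S` is a regular level set of `p` in `M` diffeomorphic to `𝕊¹ × 𝕊¹` -/
def IsRegularTorusLevel (M : Set E3) (p : E3 → ℝ) (S : Set E3) : Prop :=
  (∃ c : ℝ, S = levelSet M p c) ∧ (∀ x ∈ S, fderiv ℝ p x ≠ 0) ∧
    Diffeomorphic S (sphere (0 : ℂ) 1 ×ˢ sphere (0 : ℂ) 1)

/-- `R = R_S` is the compact regular domain with boundary `S` -/
def Bounds (S R : Set E3) : Prop := IsCompactRegularDomain R ∧ frontier R = S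

/-- `p` has toroidally nested level sets on `M` with axis `γ`. -/
structure ToroidallyNested (M : Set E3) (p : E3 → ℝ) (γ : Set E3) : Prop where
  curve : IsCompactCurve γ
  nonempty : γ.Nonempty
  subset : γ ⊆ interior M
  levels : ∀ c : ℝ, (levelSet M p c).Nonempty →
    IsRegularTorusLevel M p (levelSet M p c) ∨ levelSet M p c = γ
  nested : ∀ S₁ S₂ : Set E3, IsRegularTorusLevel M p S₁ → IsRegularTorusLevel M p S₂ →
    ∃ R₁ R₂ : Set E3, Bounds S₁ R₁ ∧ Bounds S₂ R₂ ∧ (R₁ ⊆ R₂ ∨ R₂ ⊆ R₁)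
  axis : ∀ S : Set E3, IsRegularTorusLevel M p S → ∃ R : Set E3, Bounds S R ∧ γ ⊆ interior R

/-- `K` is an infinitesimal generator of rotations about some axis: `K x = e × (x - a)`, `e ≠ 0`. -/
def IsRotationGenerator (K : E3 → E3) : Prop :=
  ∃ e a : E3, e ≠ 0 ∧ ∀ x, K x = cross e (x - a)

/-- `(X, p)` is axisymmetric on `M`: there is an infinitesimal generator `K` of rotations about some
axis, tangent to `∂M`, with `L_K X = [K, X] = 0` and `L_K p = 0` in `M`. -/
def IsAxisymmetric (M : Set E3) (X : E3 → E3) (p : E3 → ℝ) : Prop :=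
  ∃ K : E3 → E3, IsRotationGenerator K ∧ (∀ x ∈ frontier M, TangentToBoundary M x (K x)) ∧
    (∀ x ∈ M, VectorField.lieBracket ℝ K X x = 0) ∧ ∀ x ∈ M, fderiv ℝ p x (K x) = 0

end Pool.Agent.H54.Grad
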