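import Pool.Agent.H54.GradD

/-!
# The explicit flow: tangency, level sets, axis (MP_919d81_mp)
-/

set_option autoImplicit false

open scoped ContDiff Topology
open Set Metric Complex

namespace Pool.Agent.H54.Grad

/-- the phase -/
noncomputable def ph (t : ℝ) : ℂ := cexp (I * t)

theorem ph_zero : ph 0 = 1 := by simp [ph]

theorem normSq_ph (t : ℝ) : normSq (ph t) = 1 := by
  rw [ph, normSq_eq_norm_sq, mul_comm, norm_exp_ofReal_mul_I]; norm_num

theorem hasDerivAt_ph : HasDerivAt ph I 0 := by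
  have h1 : HasDerivAt (fun t : ℝ => I * (t : ℂ)) (I * 1) 0 :=
    (ofRealCLM.hasDerivAt (x := (0 : ℝ))).const_mul I
  refine h1.cexp.congr_deriv ?_
  simp

theorem hasDerivAt_conj_ph : HasDerivAt (fun t => starRingEnd ℂ (ph t)) (-I) 0 := by
  refine ((conjCLE.toContinuousLinearMap.hasFDerivAt (x := ph 0)).comp_hasDerivAt (0 : ℝ)
    hasDerivAt_ph).congr_deriv ?_
  simp

/-- the orbit through `g H u` -/
noncomputable def orb (H u : ℂ) (t : ℝ) : E3 := g H (u * ph t)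

theorem orb_zero (H u : ℂ) : orb H u 0 = g H u := by rw [orb, ph_zero, mul_one]

theorem hasDerivAt_wg (H u : ℂ) : HasDerivAt (fun t => wg H (u * ph t)) (vg H u) 0 := by
  have h := ((hasDerivAt_ph.const_mul u).const_mul (Rg H : ℂ)).add
    ((hasDerivAt_conj_ph.const_mul (starRingEnd ℂ u)).const_mul
      ((I / 2) * (starRingEnd ℂ H / (Rg H : ℂ))))
  have e : (fun t => wg H (u * ph t)) = ((fun y => (Rg H : ℂ) * (u * ph y)) + fun y =>
      I / 2 * (starRingEnd ℂ H / (Rg H : ℂ)) * (starRingEnd ℂ u * starRingEnd ℂ (ph y))) := by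
    funext t
    rw [wg, map_mul]
    rfl
  rw [e]
  refine h.congr_deriv ?_
  rw [vg]
  ring

theorem hasDerivAt_z (H u : ℂ) :
    HasDerivAt (fun t => H * (u * ph t) ^ 2) (2 * I * (H * u ^ 2)) 0 := by
  have h := ((hasDerivAt_ph.const_mul u).pow 2).const_mul H
  refine h.congr_deriv ?_
  rw [ph_zero]
  push_cast
  ring

theorem hasDerivAt_re {f : ℝ → ℂ} {f' : ℂ} {x : ℝ} (h : HasDerivAt f f' x) :
    HasDerivAt (fun t => (f t).re) f'.re x :=
  (reCLM.hasFDerivAt (x := f x)).comp_hasDerivAt x h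

theorem hasDerivAt_im {f : ℝ → ℂ} {f' : ℂ} {x : ℝ} (h : HasDerivAt f f' x) :
    HasDerivAt (fun t => (f t).im) f'.im x :=
  (imCLM.hasFDerivAt (x := f x)).comp_hasDerivAt x h

theorem hasDerivAt_orb {H u : ℂ} (hH : normSq H < 1) (hu : normSq u = 1) :
    HasDerivAt (orb H u) (X (g H u)) 0 := by
  have hd : DifferentiableAt ℝ (orb H u) 0 := by
    have h1 : DifferentiableAt ℝ (fun t : ℝ => ((H, u * ph t) : ℂ × ℂ)) 0 :=
      DifferentiableAt.prodMk (differentiableAt_const _)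
        ((hasDerivAt_ph.const_mul u).differentiableAt)
    have h2 : DifferentiableAt ℝ gp ((fun t : ℝ => ((H, u * ph t) : ℂ × ℂ)) 0) := by
      have hmem : ((fun t : ℝ => ((H, u * ph t) : ℂ × ℂ)) 0) ∈ pdom := hH
      exact (cdo_gp.contDiffAt (isOpen_pdom.mem_nhds hmem)).differentiableAt (by simp)
    have h3 := DifferentiableAt.comp (g := gp)
      (f := fun t : ℝ => ((H, u * ph t) : ℂ × ℂ)) (0 : ℝ) h2 h1
    exact h3
  obtain ⟨c', hc⟩ : ∃ c', HasDerivAt (orb H u) c' 0 := ⟨_, hd.hasDerivAt⟩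
  have hi : ∀ i : Fin 3, HasDerivAt (fun t => orb H u t i) (c' i) 0 := fun i =>
    ((dx i).hasFDerivAt (x := orb H u 0)).comp_hasDerivAt (0 : ℝ) hc
  have e : c' = X (g H u) := by
    ext i
    fin_cases i
    · refine (hi 0).unique ?_
      have := (hasDerivAt_re (hasDerivAt_wg H u)).const_mul (2 : ℝ)
      show HasDerivAt (fun t => orb H u t 0) (X (g H u) 0) 0
      rw [X_g0 hH hu]
      exact this
    · refine (hi 1).unique ?_
      have := (hasDerivAt_im (hasDerivAt_wg H u)).div_const (2 : ℝ)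
      show HasDerivAt (fun t => orb H u t 1) (X (g H u) 1) 0
      rw [X_g1 hH hu]
      exact this
    · refine (hi 2).unique ?_
      have := hasDerivAt_re (hasDerivAt_z H u)
      show HasDerivAt (fun t => orb H u t 2) (X (g H u) 2) 0
      rw [X_g2 hH hu]
      have e2 : (2 * I * (H * u ^ 2)).re = -2 * (H * u ^ 2).im := by
        simp only [mul_re, mul_im, re_ofNat, im_ofNat, I_re, I_im]
        ring
      rw [← e2]
      exact this
  rw [← e]
  exact hc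

theorem tangent_L {r : ℝ} (hr : 0 < r) (hr1 : r ≤ 1 / 2) {v : E3} (hv : v ∈ L r) :
    TangentToBoundary (T r) v (X v) := by
  have hu := uv_normSq hv.1
  have hH := Hv_lt hv.1
  refine ⟨orb (Hv v) (uv v), ?_, ?_, ?_⟩
  · rw [orb_zero, g_Hv hv.1]
  · have := hasDerivAt_orb hH hu
    rwa [g_Hv hv.1] at this
  · refine Filter.Eventually.of_forall fun t => ?_
    rw [frontier_T hr hr1]
    have hu2 : normSq (uv v * ph t) = 1 := by rw [map_mul, hu, normSq_ph, one_mul]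
    refine ⟨g_mem hH hu2, ?_⟩
    rw [orb, Hv_g hH hu2]
    exact hv.2

theorem equilibrium : IsMHDEquilibrium (T (1 / 2)) X p where
  smooth_X := ⟨dom, isOpen_dom, fun v hv => hv.1, cdo_X⟩
  smooth_p := ⟨dom, isOpen_dom, fun v hv => hv.1, cdo_p⟩
  force := fun v hv => force_eq hv.1
  div_free := fun v hv => div_zero hv.1
  tangent := fun v hv => by
    rw [frontier_T (by norm_num) le_rfl] at hv
    exact tangent_L (by norm_num) le_rfl hv

/-! ### the axis -/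

theorem Hs_lt : normSq Hs < 1 := by
  rw [normSq_lt_iff, norm_Hs]; norm_num

theorem L0_iff (v : E3) : v ∈ L 0 ↔ v ∈ dom ∧ Hv v = Hs := by
  rw [L, Set.mem_ofPred_eq, norm_eq_zero, sub_eq_zero]

theorem L0_eq : L 0 = (fun u => gp (Hs, u)) '' sphere (0 : ℂ) 1 := by
  ext v
  rw [L0_iff]
  constructor
  · rintro ⟨h1, h2⟩
    refine ⟨uv v, (sph_iff _).2 (uv_normSq h1), ?_⟩
    show g Hs (uv v) = v
    rw [← h2]; exact g_Hv h1
  · rintro ⟨u, hu, rfl⟩
    rw [sph_iff] at hu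
    exact ⟨g_mem Hs_lt hu, Hv_g Hs_lt hu⟩

theorem L0_compact : IsCompact (L 0) := by
  rw [L0_eq]
  refine (isCompact_sphere _ _).image_of_continuousOn ?_
  have h : ContinuousOn (gp ∘ fun u : ℂ => ((Hs, u) : ℂ × ℂ)) (sphere (0 : ℂ) 1) :=
    cdo_gp.continuousOn.comp (Continuous.continuousOn (by fun_prop)) fun u _ => Hs_lt
  exact h

theorem surj_Hv {v : E3} (hv : v ∈ dom) : Function.Surjective (fderiv ℝ (fun v => Hv v - Hs) v) := by
  have hu := uv_normSq hv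
  have hH := Hv_lt hv
  have h1 : DifferentiableAt ℝ (fun H : ℂ => ((H, uv v) : ℂ × ℂ)) (Hv v) :=
    DifferentiableAt.prodMk differentiableAt_id (differentiableAt_const _)
  have h2 : DifferentiableAt ℝ gp ((fun H : ℂ => ((H, uv v) : ℂ × ℂ)) (Hv v)) := by
    have hmem : ((fun H : ℂ => ((H, uv v) : ℂ × ℂ)) (Hv v)) ∈ pdom := hH
    exact (cdo_gp.contDiffAt (isOpen_pdom.mem_nhds hmem)).differentiableAt (by simp)
  have h3 := DifferentiableAt.comp (g := gp) (f := fun H : ℂ => ((H, uv v) : ℂ × ℂ)) (Hv v) h2 h1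
  have hv2 : (gp ∘ fun H : ℂ => ((H, uv v) : ℂ × ℂ)) (Hv v) = v := g_Hv hv
  have h4 : DifferentiableAt ℝ (fun v => Hv v - Hs) v :=
    ((cdo_Hv.sub contDiffOn_const).contDiffAt (isOpen_dom.mem_nhds hv)).differentiableAt (by simp)
  have h5 : HasFDerivAt (fun v => Hv v - Hs) (fderiv ℝ (fun v => Hv v - Hs) v)
      ((gp ∘ fun H : ℂ => ((H, uv v) : ℂ × ℂ)) (Hv v)) := by
    rw [hv2]; exact h4.hasFDerivAt
  have h6 := h5.comp (Hv v) h3.hasFDerivAt
  have h7 : HasFDerivAt (fun H : ℂ => H - Hs) (ContinuousLinearMap.id ℝ ℂ) (Hv v) :=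
    (hasFDerivAt_id (Hv v)).sub_const Hs
  have h8 : (fun H : ℂ => H - Hs) =ᶠ[𝓝 (Hv v)]
      ((fun v => Hv v - Hs) ∘ (gp ∘ fun H : ℂ => ((H, uv v) : ℂ × ℂ))) := by
    have : ∀ᶠ H in 𝓝 (Hv v), normSq H < 1 :=
      (continuous_normSq.tendsto (Hv v)).eventually (gt_mem_nhds hH)
    filter_upwards [this] with H hH'
    show H - Hs = Hv (g H (uv v)) - Hs
    rw [Hv_g hH' hu]
  have h9 := (h8.hasFDerivAt_iff.1 h7).unique h6
  intro y
  have h10 := congrArg (fun A : ℂ →L[ℝ] ℂ => A y) h9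
  exact ⟨_, h10.symm⟩

theorem axis_curve : IsCompactCurve (L 0) := by
  refine ⟨L0_compact, fun x hx => ?_⟩
  rw [L0_iff] at hx
  refine ⟨dom, fun v => Hv v - Hs, isOpen_dom, hx.1, cdo_Hv.sub contDiffOn_const, surj_Hv hx.1,
    fun y hy => ?_⟩
  rw [L0_iff, sub_eq_zero]
  exact ⟨fun h => h.2, fun h => ⟨hy, h⟩⟩

theorem axis_nonempty : (L 0).Nonempty := by
  refine ⟨g Hs 1, ?_⟩
  rw [L0_iff]
  exact ⟨g_mem Hs_lt (by simp), Hv_g Hs_lt (by simp)⟩

theorem axis_subset {r : ℝ} (hr : 0 < r) : L 0 ⊆ interior (T r) := by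
  intro v hv
  refine ball_subset_interior r ⟨hv.1, ?_⟩
  rw [hv.2]; exact hr

/-! ### the level sets -/

theorem p_norm {v : E3} (hv : v ∈ dom) : p v = -(863 / 512) - 2 * ‖Hv v - Hs‖ ^ 2 := by
  rw [p_eq hv, normSq_sub]

theorem levelSet_eq {c : ℝ} {v : E3} (hv : v ∈ levelSet (T (1 / 2)) p c) :
    levelSet (T (1 / 2)) p c = L ‖Hv v - Hs‖ := by
  obtain ⟨⟨h1, h2⟩, h3⟩ := hv
  ext w
  constructor
  · rintro ⟨⟨h4, h5⟩, h6⟩
    refine ⟨h4, ?_⟩
    rw [← h3, p_norm h4, p_norm h1] at h6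
    have : ‖Hv w - Hs‖ ^ 2 = ‖Hv v - Hs‖ ^ 2 := by linarith
    exact (sq_eq_sq₀ (norm_nonneg _) (norm_nonneg _)).1 this
  · rintro ⟨h4, h5⟩
    refine ⟨⟨h4, by rw [h5]; exact h2⟩, ?_⟩
    rw [← h3, p_norm h4, p_norm h1, h5]

theorem p_eventually {v : E3} (hv : v ∈ dom) :
    p =ᶠ[𝓝 v] fun v => -(863 / 512) - 2 * normSq (Hv v - Hs) := by
  filter_upwards [isOpen_dom.mem_nhds hv] with w hw using p_eq hw

theorem fderiv_p {v : E3} (hv : v ∈ dom) (h0 : Hv v ≠ Hs) : fderiv ℝ p v ≠ 0 := by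
  rw [(p_eventually hv).fderiv_eq, fderiv_const_sub]
  have hd : DifferentiableAt ℝ (fun v => normSq (Hv v - Hs)) v :=
    (cdo_N.contDiffAt (isOpen_dom.mem_nhds hv)).differentiableAt (by simp)
  rw [fderiv_const_mul hd]
  intro h
  rw [neg_eq_zero, smul_eq_zero] at h
  rcases h with h | h
  · norm_num at h
  · exact fderiv_N hv h0 h

theorem fderiv_p_axis {v : E3} (hv : v ∈ L 0) : fderiv ℝ p v = 0 := by
  refine IsLocalMax.fderiv_eq_zero ?_
  filter_upwards [isOpen_dom.mem_nhds hv.1] with w hw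
  rw [p_norm hw, p_norm hv.1, hv.2]
  nlinarith [sq_nonneg ‖Hv w - Hs‖]

theorem regular_L {r : ℝ} (hr : 0 < r) (hr1 : r ≤ 1 / 2) : IsRegularTorusLevel (T (1 / 2)) p (L r) := by
  refine ⟨⟨-(863 / 512) - 2 * r ^ 2, ?_⟩, fun x hx => ?_, L_diffeo hr hr1⟩
  · ext v
    constructor
    · rintro ⟨h1, h2⟩
      exact ⟨⟨h1, by rw [h2]; exact hr1⟩, by rw [p_norm h1, h2]⟩
    · rintro ⟨⟨h1, h2⟩, h3⟩
      refine ⟨h1, ?_⟩
      rw [p_norm h1] at h3
      have : ‖Hv v - Hs‖ ^ 2 = r ^ 2 := by linarith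
      exact (sq_eq_sq₀ (norm_nonneg _) hr.le).1 this
  · refine fderiv_p hx.1 fun h => ?_
    have := hx.2
    rw [h, sub_self, norm_zero] at this
    exact hr.ne this

/-- the regular level sets are the tori `L r` -/
theorem regular_iff {S : Set E3} (hS : IsRegularTorusLevel (T (1 / 2)) p S) :
    ∃ r : ℝ, 0 < r ∧ r ≤ 1 / 2 ∧ S = L r := by
  obtain ⟨⟨c, rfl⟩, h2, f, g', -, -, -, h3, -, -⟩ := hS
  have hmem : g' ((1 : ℂ), (1 : ℂ)) ∈ levelSet (T (1 / 2)) p c := h3 ⟨by simp, by simp⟩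
  obtain ⟨v, hv⟩ : ∃ v, v ∈ levelSet (T (1 / 2)) p c := ⟨_, hmem⟩
  refine ⟨‖Hv v - Hs‖, ?_, hv.1.2, levelSet_eq hv⟩
  refine (norm_nonneg _).lt_of_ne fun h => ?_
  have hL : v ∈ L 0 := ⟨hv.1.1, h.symm⟩
  exact h2 v hv (fderiv_p_axis hL)

theorem nested : ToroidallyNested (T (1 / 2)) p (L 0) where
  curve := axis_curve
  nonempty := axis_nonempty
  subset := axis_subset (by norm_num)
  levels := by
    rintro c ⟨v, hv⟩
    rw [levelSet_eq hv]
    rcases (norm_nonneg (Hv v - Hs)).lt_or_eq with h | h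
    · exact Or.inl (regular_L h hv.1.2)
    · right; rw [← h]
  nested := by
    intro S₁ S₂ h1 h2
    obtain ⟨r1, hr1, hr1', rfl⟩ := regular_iff h1
    obtain ⟨r2, hr2, hr2', rfl⟩ := regular_iff h2
    refine ⟨T r1, T r2, ⟨T_regular hr1 hr1', frontier_T hr1 hr1'⟩,
      ⟨T_regular hr2 hr2', frontier_T hr2 hr2'⟩, ?_⟩
    rcases le_total r1 r2 with h | h
    · left; exact fun v hv => ⟨hv.1, hv.2.trans h⟩
    · right; exact fun v hv => ⟨hv.1, hv.2.trans h⟩
  axis := by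
    intro S h
    obtain ⟨r, hr, hr', rfl⟩ := regular_iff h
    exact ⟨T r, ⟨T_regular hr hr', frontier_T hr hr'⟩, axis_subset hr⟩

end Pool.Agent.H54.Grad
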