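import Pool.Agent.H54.GradE

/-!
# The explicit flow is not axisymmetric (MP_919d81_mp)
-/

set_option autoImplicit false

open scoped ContDiff Topology
open Set Metric Complex

namespace Pool.Agent.H54.Grad

@[simp] theorem cross_0 (a b : E3) : cross a b 0 = a 1 * b 2 - a 2 * b 1 := rfl
@[simp] theorem cross_1 (a b : E3) : cross a b 1 = a 2 * b 0 - a 0 * b 2 := rfl
@[simp] theorem cross_2 (a b : E3) : cross a b 2 = a 0 * b 1 - a 1 * b 0 := rfl

theorem pds_K2 (e a v : E3) : Pds (fun x => cross e (x - a) 2) v (-e 1) (e 0) 0 := by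
  have h := ((pds_const (e 0) v).mul ((pds_coord1 v).sub (pds_const (a 1) v))).sub
    ((pds_const (e 1) v).mul ((pds_coord0 v).sub (pds_const (a 0) v)))
  exact h.congr (by ring) (by ring) (by ring)

theorem differentiable_K (e a : E3) : Differentiable ℝ (fun x => cross e (x - a)) := by
  have h : ContDiff ℝ ∞ (fun x => cross e (x - a)) := by
    rw [contDiff_euclidean]
    intro i
    have h0 := (cd_coord 0).sub (contDiff_const (c := a 0))
    have h1 := (cd_coord 1).sub (contDiff_const (c := a 1))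
    have h2 := (cd_coord 2).sub (contDiff_const (c := a 2))
    fin_cases i
    · exact (contDiff_const (c := e 1)).mul h2 |>.sub ((contDiff_const (c := e 2)).mul h1)
    · exact (contDiff_const (c := e 2)).mul h0 |>.sub ((contDiff_const (c := e 0)).mul h2)
    · exact (contDiff_const (c := e 0)).mul h1 |>.sub ((contDiff_const (c := e 1)).mul h0)
  exact h.differentiable (by simp)

/-- the third component of a derivative -/
theorem comp2 {F : E3 → E3} {v w : E3} {a b c : ℝ} (hF : DifferentiableAt ℝ F v)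
    (h : Pds (fun x => F x 2) v a b c) : (fderiv ℝ F v w) 2 = a * w 0 + b * w 1 + c * w 2 := by
  have h1 : HasFDerivAt (fun x => F x 2) ((dx 2).comp (fderiv ℝ F v)) v :=
    ((dx 2).hasFDerivAt (x := F v)).comp v hF.hasFDerivAt
  have h2 := congrArg (fun A : E3 →L[ℝ] ℝ => A w) (h1.unique h)
  have h3 : (fderiv ℝ F v w) 2 = (a • dx 0 + b • dx 1 + c • dx 2 : E3 →L[ℝ] ℝ) w := h2
  rw [h3, Pds.app]

theorem bracket_eq {e a v : E3} (hv : v ∈ dom)
    (h : VectorField.lieBracket ℝ (fun x => cross e (x - a)) X v = 0) :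
    -v 0 * (e 1 * (v 2 - a 2) - e 2 * (v 1 - a 1)) - 16 * v 1 * (e 2 * (v 0 - a 0) - e 0 * (v 2 - a 2)) -
      (e 0 * X v 1 - e 1 * X v 0) = 0 := by
  have h1 := congrArg (fun w : E3 => w 2) h
  have hX : DifferentiableAt ℝ X v :=
    (cdo_X.contDiffAt (isOpen_dom.mem_nhds hv)).differentiableAt (by simp)
  have h2 : (VectorField.lieBracket ℝ (fun x => cross e (x - a)) X v) 2 =
      (fderiv ℝ X v (cross e (v - a))) 2 - (fderiv ℝ (fun x => cross e (x - a)) v (X v)) 2 := rfl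
  rw [comp2 hX (pds_X2 v), comp2 (differentiable_K e a v) (pds_K2 e a v), cross_0, cross_1] at h2
  have h3 : (VectorField.lieBracket ℝ (fun x => cross e (x - a)) X v) 2 = 0 := h1
  rw [h2] at h3
  have e0 : (v - a) 0 = v 0 - a 0 := rfl
  have e1 : (v - a) 1 = v 1 - a 1 := rfl
  have e2 : (v - a) 2 = v 2 - a 2 := rfl
  rw [e0, e1, e2] at h3
  linear_combination h3

/-- values of `Rg` -/
theorem Rg_0 : Rg 0 = 1 := by
  rw [Rg, Sg]; simp

noncomputable def Hh : ℂ := ⟨0, -(24 / 25)⟩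

theorem normSq_Hh : normSq Hh = (24 / 25) ^ 2 := by
  rw [Hh, normSq_mk]; norm_num

theorem Sg_Hh : Sg Hh = 7 / 25 := by
  rw [Sg, normSq_Hh, show (1 : ℝ) - (24 / 25) ^ 2 = (7 / 25) ^ 2 by norm_num]
  exact Real.sqrt_sq (by norm_num)

theorem Rg_Hh : Rg Hh = 4 / 5 := by
  rw [Rg, Sg_Hh, show ((1 : ℝ) + 7 / 25) / 2 = (4 / 5) ^ 2 by norm_num]
  exact Real.sqrt_sq (by norm_num)

theorem Hh_lt : normSq Hh < 1 := by rw [normSq_Hh]; norm_num

theorem zero_lt : normSq (0 : ℂ) < 1 := by simp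

theorem mem_T_0 {u : ℂ} (hu : normSq u = 1) : g 0 u ∈ T (1 / 2) := by
  refine ⟨g_mem zero_lt hu, ?_⟩
  rw [Hv_g zero_lt hu, zero_sub, norm_neg, norm_Hs]
  norm_num

theorem mem_T_Hh {u : ℂ} (hu : normSq u = 1) : g Hh u ∈ T (1 / 2) := by
  refine ⟨g_mem Hh_lt hu, ?_⟩
  rw [Hv_g Hh_lt hu]
  have : Hh - Hs = ((-(393 / 800) : ℝ) : ℂ) * I := by
    apply Complex.ext <;> simp [Hh, Hs]
    norm_num
  rw [this, norm_mul, norm_I, mul_one, norm_real, Real.norm_eq_abs]
  norm_num [abs_of_neg]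

theorem not_axisymmetric : ¬ IsAxisymmetric (T (1 / 2)) X p := by
  rintro ⟨K, ⟨e, a, he, hK⟩, -, hX, -⟩
  have hK' : K = fun x => cross e (x - a) := funext hK
  subst hK'
  have key : ∀ H u : ℂ, normSq H < 1 → normSq u = 1 → g H u ∈ T (1 / 2) →
      -(2 * (wg H u).re) * (e 1 * ((H * u ^ 2).re - a 2) - e 2 * ((wg H u).im / 2 - a 1)) -
        16 * ((wg H u).im / 2) * (e 2 * (2 * (wg H u).re - a 0) - e 0 * ((H * u ^ 2).re - a 2)) -
      (e 0 * ((vg H u).im / 2) - e 1 * (2 * (vg H u).re)) = 0 := by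
    intro H u hH hu hT
    have h := bracket_eq hT.1 (hX _ hT)
    rw [X_g0 hH hu, X_g1 hH hu, g_0, g_1, g_2] at h
    exact h
  have hI : normSq I = 1 := by simp
  have h1 : normSq (1 : ℂ) = 1 := by simp
  have h5 : normSq (⟨3 / 5, 4 / 5⟩ : ℂ) = 1 := by rw [normSq_mk]; norm_num
  have k1 := key 0 1 zero_lt h1 (mem_T_0 h1)
  have k2 := key Hh 1 Hh_lt h1 (mem_T_Hh h1)
  have k3 := key 0 I zero_lt hI (mem_T_0 hI)
  have k4 := key Hh I Hh_lt hI (mem_T_Hh hI)
  have k5 := key 0 ⟨3 / 5, 4 / 5⟩ zero_lt h5 (mem_T_0 h5)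
  have hre : Hh.re = 0 := rfl
  have him : Hh.im = -(24 / 25) := rfl
  simp only [wg_re, wg_im, vg_re, vg_im, Rg_0, Rg_Hh, sq_re, zero_re, zero_im, one_re, one_im, I_re,
    I_im, hre, him] at k1 k2 k3 k4 k5
  norm_num at k1 k2 k3 k4 k5
  have e0 : e 0 = 0 := by linarith
  rw [e0] at k1 k2 k3 k4 k5
  have c1 : -(e 1 * a 2) + e 2 * a 1 = 0 := by linarith
  have e1 : e 1 = 0 := by linarith
  rw [e1] at k1 k2 k3 k4 k5 c1
  have c2 : e 2 * a 0 = 0 := by linarith
  have e2 : e 2 = 0 := by linarith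
  refine he ?_
  ext i
  fin_cases i
  · exact e0
  · exact e1
  · exact e2

end Pool.Agent.H54.Grad
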